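import Mathlib
import Pool.Graph.R_seed8.W372.RK2.CNT4

/-!
# The number of the elements of a set with given small prime factors and given signs

From an upper bound sieve estimate for a finite set `T` of integers (`SVT`).
-/

set_option autoImplicit false

namespace Pool.Agent.H27.RU

open Finset Pool.Agent.W262.RK Pool.Agent.W372.RK2

variable {J : Type} [Fintype J] [DecidableEq J]

/-- an upper bound sieve for the set `T`; `S` replaces the number of the elements -/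
def SVT (α β : J → ℤ) (z c : ℕ) (T : Finset ℤ) (S : ℝ) (X : ℕ) (C D : ℝ) (K y0 : ℕ) : Prop :=
  ∀ y k : ℕ, y0 ≤ y → z < y → y ^ K ≤ X → X < (y + 1) ^ k → ∀ (m : ℕ) (r : ℤ), 1 ≤ m →
    m ^ 4 ≤ X → (∀ p : ℕ, p.Prime → p ∣ m → z < p ∧ ∃ t ∈ T, ∃ j, (p : ℤ) ∣ ff α β t j) →
    ((T.filter (fun t : ℤ => (m : ℤ) ∣ t - r ∧ ∀ p ∈ PS z y, ¬ p ∣ m →
      ∀ j, ¬ (p : ℤ) ∣ ff α β t j)).card : ℝ) ≤
      C * D ^ k * (S / m) * (∏ p ∈ m.primeFactors.filter (fun p => p ∈ PS z y),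
        (p : ℝ) / ((p : ℝ) - c)) / (Real.log y) ^ (Fintype.card J)

variable {α β : J → ℤ} {z y Y : ℕ} {s v u : J → ℕ} {t : ℤ} {cls : J → Fin 4}

/-- the product over the primes of the modulus -/
lemma prod_primes_c (c : ℕ) (hB : Bg α β z) (hs : s ∈ Tup J z y) (hv : v ∈ Tup J z y)
    (hu : u ∈ Tup J y Y) (g : Good α β z y s v u t) :
    ∏ p ∈ (∏ j, mj cls s v u j).primeFactors.filter (fun p => p ∈ PS z y),
      (p : ℝ) / ((p : ℝ) - c) =
    ∏ j, ((s j * gw 1 c (s j)) * (v j * gw 1 c (v j))) := by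
  have hs' := (Pool.Agent.W372.RK2.mem_Tup'.1 hs).1
  have hv' := (Pool.Agent.W372.RK2.mem_Tup'.1 hv).1
  have key : ∀ j p, p ∈ (s j).primeFactors ∪ (v j).primeFactors →
      p.Prime ∧ z < p ∧ (p : ℤ) ∣ ff α β t j := by
    intro j p hp
    rcases mem_union.1 hp with hp | hp
    · have h1 := Nat.prime_of_mem_primeFactors hp
      have h2 := g.fs h1 (Nat.dvd_of_mem_primeFactors hp)
      exact ⟨h1, (mem_PS.1 h2.1).1.1, h2.2.1⟩
    · have h1 := Nat.prime_of_mem_primeFactors hp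
      have h2 := g.fv h1 (Nat.dvd_of_mem_primeFactors hp)
      exact ⟨h1, (mem_PS.1 h2.1).1.1, (dvd_pow_self (p : ℤ) two_ne_zero).trans h2.2⟩
  rw [mj_primes hs hv hu, prod_biUnion]
  · apply prod_congr rfl
    intro j _
    rw [prod_union, prod_gw (hs' j), prod_gw (hv' j)]
    rw [Finset.disjoint_left]
    intro p h1 h2
    have hp := Nat.prime_of_mem_primeFactors h1
    exact (g.fs hp (Nat.dvd_of_mem_primeFactors h1)).2.2
      (g.fv hp (Nat.dvd_of_mem_primeFactors h2)).2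
  · intro j _ l _ hjl
    rw [Function.onFun, Finset.disjoint_left]
    intro p h1 h2
    have h3 := key j p h1
    have h4 := key l p h2
    exact hjl (uniq hB h3.1 h3.2.1 h3.2.2 h4.2.2)

/-- the count from the sieve -/
theorem cntU {c : ℕ} {T : Finset ℤ} {S : ℝ} {X : ℕ} {C D : ℝ} {K y0 : ℕ} (hB : Bg α β z)
    (hc : 2 * c + 2 ≤ z) (hC : 0 ≤ C) (hD : 1 ≤ D) (hS : 0 ≤ S)
    (hSV : SVT α β z c T S X C D K y0) (cls : J → Fin 4) {y Y k : ℕ} (hy0 : y0 ≤ y) (hzy : z < y)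
    (hX : y ^ K ≤ X) (hk : X < (y + 1) ^ k) {s v u : J → ℕ} (hs : s ∈ Tup J z y)
    (hv : v ∈ Tup J z y) (hu : u ∈ Tup J y Y) (hsvu : (∏ j, s j * v j * u j) ^ 8 ≤ X)
    (E : Finset ℕ) :
    ((T.filter (fun t : ℤ => s1 α β z y t = s ∧ s2 α β z y t = v ∧
      (∀ j, (u j : ℤ) ∣ ff α β t j) ∧ neg3 cls α β t s = E)).card : ℝ) ≤
      C * D ^ k * S * (1 / 2) ^ (P3 cls s).card * (∏ j, gw 1 c (s j)) *
        (∏ j, gw 1 c (v j) / v j) * (∏ j, 1 / (u j : ℝ)) /
        (Real.log y) ^ (Fintype.card J) := by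
  have hs' := (Pool.Agent.W372.RK2.mem_Tup'.1 hs).1
  have hv' := (Pool.Agent.W372.RK2.mem_Tup'.1 hv).1
  have hu' := (Pool.Agent.W372.RK2.mem_Tup'.1 hu).1
  have hz : 2 ≤ z := by omega
  have hcz : c ≤ z := by omega
  have hlog : 0 ≤ (Real.log y) ^ (Fintype.card J) := pow_nonneg (Real.log_natCast_nonneg y) _
  set T1 := T.filter (fun t : ℤ => s1 α β z y t = s ∧ s2 α β z y t = v ∧
      (∀ j, (u j : ℤ) ∣ ff α β t j) ∧ neg3 cls α β t s = E) with hT1
  have hgood : ∀ t ∈ T1, Good α β z y s v u t ∧ neg3 cls α β t s = E := by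
    intro t ht
    rw [hT1, mem_filter] at ht
    exact ⟨⟨ht.2.1, ht.2.2.1, ht.2.2.2.1⟩, ht.2.2.2.2⟩
  have hgs : ∀ j, 0 ≤ gw 1 c (s j) := fun j => gw_nonneg zero_le_one hcz (hs' j)
  have hgv : ∀ j, 0 ≤ gw 1 c (v j) := fun j => gw_nonneg zero_le_one hcz (hv' j)
  have hD0 : (0 : ℝ) ≤ D ^ k := by positivity
  rcases T1.eq_empty_or_nonempty with hTe | ⟨t0, ht0⟩
  · rw [hTe, card_empty, Nat.cast_zero]
    apply div_nonneg _ hlog
    have h1 : 0 ≤ ∏ j, gw 1 c (s j) := prod_nonneg fun j _ => hgs j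
    have h2 : 0 ≤ ∏ j, gw 1 c (v j) / v j :=
      prod_nonneg fun j _ => div_nonneg (hgv j) (Nat.cast_nonneg _)
    have h3 : 0 ≤ ∏ j, 1 / (u j : ℝ) := prod_nonneg fun j _ => by positivity
    positivity
  set m := ∏ j, mj cls s v u j with hm
  have hmj1 : ∀ j, 1 ≤ mj cls s v u j := by
    intro j
    unfold mj
    have h1 := dv_pos (hs' j)
    have h2 := dv_pos (hv' j)
    have h3 := dv_pos (hu' j)
    have h4 : 0 < (if cls j = 3 then s j else 1) := by split_ifs <;> omega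
    exact Nat.succ_le_of_lt (by positivity)
  have hm1 : 1 ≤ m := Nat.succ_le_of_lt (prod_pos fun j _ => hmj1 j)
  have hm4 : m ^ 4 ≤ X := by
    refine le_trans ?_ hsvu
    have h1 : m ≤ (∏ j, s j * v j * u j) ^ 2 := by
      rw [← prod_pow]
      apply prod_le_prod'
      intro j _
      unfold mj
      have h1 := dv_pos (hs' j)
      have h3 := dv_pos (hu' j)
      have h4 : (if cls j = 3 then s j else 1) ≤ s j := by split_ifs <;> omega
      calc s j * (if cls j = 3 then s j else 1) * v j ^ 2 * u j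
          ≤ s j * s j * v j ^ 2 * (u j * u j) := by
            apply Nat.mul_le_mul
            · exact Nat.mul_le_mul_right _ (Nat.mul_le_mul_left _ h4)
            · nlinarith
        _ = (s j * v j * u j) ^ 2 := by ring
    calc m ^ 4 ≤ ((∏ j, s j * v j * u j) ^ 2) ^ 4 := Nat.pow_le_pow_left h1 4
      _ = (∏ j, s j * v j * u j) ^ 8 := by rw [← pow_mul]
  have hsq := (hgood t0 ht0).1
  have hmp : ∀ p : ℕ, p.Prime → p ∣ m → z < p ∧ ∃ t ∈ T, ∃ j, (p : ℤ) ∣ ff α β t j := by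
    intro p hp hpm
    obtain ⟨j, _, hj⟩ := (hp.prime.dvd_finsetProd_iff _).1 hpm
    have h := hsq.fmj hu hzy hp hj
    exact ⟨h.1, t0, (mem_filter.1 ht0).1, j, h.2⟩
  -- bound for a fibre
  set B : ℝ := C * D ^ k * (S / m) * (∏ p ∈ m.primeFactors.filter (fun p => p ∈ PS z y),
        (p : ℝ) / ((p : ℝ) - c)) / (Real.log y) ^ (Fintype.card J) with hBdef
  have hfib : ∀ φ : P3 cls s → ℕ,
      ((T1.filter (fun t : ℤ => Phi α β cls s t = φ)).card : ℝ) ≤ B := by
    intro φ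
    rcases (T1.filter (fun t : ℤ => Phi α β cls s t = φ)).eq_empty_or_nonempty with
      he | ⟨r, hr⟩
    · rw [he, card_empty, Nat.cast_zero]
      exact le_trans (Nat.cast_nonneg _) (hSV y k hy0 hzy hX hk m 0 hm1 hm4 hmp)
    · refine le_trans ?_ (hSV y k hy0 hzy hX hk m r hm1 hm4 hmp)
      rw [Nat.cast_le]
      apply card_le_card
      intro t ht
      rw [mem_filter] at ht hr
      have g := (hgood t ht.1).1
      have g' := (hgood r hr.1).1
      have htX : t ∈ T := (mem_filter.1 ht.1).1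
      rw [mem_filter]
      refine ⟨htX, ?_, ?_⟩
      · have h1 := congr_of hB hzy hs hv hu g g' (fun j hj p hp hps =>
          Phi_congr hB hs g g' (ht.2.trans hr.2.symm) j hj p hp hps)
        rwa [← hm] at h1
      · intro p hpP hpm j hpf
        have hp := (mem_PS.1 hpP).2
        apply hpm
        rw [hm]
        refine Dvd.dvd.trans ?_ (dvd_prod_of_mem _ (mem_univ j))
        unfold mj
        by_cases h2 : (p : ℤ) ^ 2 ∣ ff α β t j
        · have h3 : p ∣ v j := by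
            rw [← g.hv]
            exact (dvd_s2 hp).2 ⟨hpP, h2⟩
          exact (((h3.pow two_ne_zero).mul_left _).mul_right _)
        · have h3 : p ∣ s j := by
            rw [← g.hs]
            exact (dvd_s1 hp).2 ⟨hpP, hpf, h2⟩
          exact (((h3.mul_right _).mul_right _).mul_right _)
  have hB0 : 0 ≤ B := le_trans (Nat.cast_nonneg _) (hSV y k hy0 hzy hX hk m 0 hm1 hm4 hmp)
  have hcard : (T1.card : ℝ) ≤
      ((Fintype.piFinset (fun p : P3 cls s => WW E p.1)).card : ℝ) * B := by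
    rw [card_eq_sum_card_fiberwise (f := fun t : ℤ => Phi α β cls s t)
      (t := Fintype.piFinset (fun p : P3 cls s => WW E p.1))
      (fun t ht => Phi_mem hB (hgood t ht).1 (hgood t ht).2)]
    rw [Nat.cast_sum]
    refine (sum_le_sum fun φ _ => hfib φ).trans ?_
    rw [sum_const, nsmul_eq_mul]
  refine hcard.trans ((mul_le_mul_of_nonneg_right (card_Phi hz hs E) hB0).trans ?_)
  rw [hBdef, hm, prod_primes_c c hB hs hv hu hsq, Nat.cast_prod]
  have hterm : ∀ j, ((if cls j = 3 then s j else 1 : ℕ) : ℝ) * ((s j *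
      gw 1 c (s j)) * (v j * gw 1 c (v j))) /
      ((mj cls s v u j : ℕ) : ℝ) = gw 1 c (s j) *
      (gw 1 c (v j) / v j) * (1 / (u j : ℝ)) := by
    intro j
    have h1 : (s j : ℝ) ≠ 0 := Nat.cast_ne_zero.2 (dv_ne_zero (hs' j))
    have h2 : (v j : ℝ) ≠ 0 := Nat.cast_ne_zero.2 (dv_ne_zero (hv' j))
    have h3 : (u j : ℝ) ≠ 0 := Nat.cast_ne_zero.2 (dv_ne_zero (hu' j))
    have h4 : ((if cls j = 3 then s j else 1 : ℕ) : ℝ) ≠ 0 := by
      split_ifs
      · exact h1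
      · simp
    unfold mj
    rw [Nat.cast_mul, Nat.cast_mul, Nat.cast_mul, Nat.cast_pow]
    field_simp
  have hprod : (∏ j, ((if cls j = 3 then s j else 1 : ℕ) : ℝ)) *
      (∏ j, ((s j * gw 1 c (s j)) * (v j * gw 1 c (v j)))) /
      (∏ j, ((mj cls s v u j : ℕ) : ℝ)) = (∏ j, gw 1 c (s j)) *
        (∏ j, gw 1 c (v j) / v j) * (∏ j, 1 / (u j : ℝ)) := by
    rw [← prod_mul_distrib, ← prod_div_distrib, ← prod_mul_distrib, ← prod_mul_distrib]
    exact prod_congr rfl fun j _ => hterm j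
  apply le_of_eq
  rw [show C * D ^ k * S * (1 / 2) ^ (P3 cls s).card * (∏ j, gw 1 c (s j)) *
        (∏ j, gw 1 c (v j) / v j) * (∏ j, 1 / (u j : ℝ)) =
      C * D ^ k * S * (1 / 2) ^ (P3 cls s).card * ((∏ j, gw 1 c (s j)) *
        (∏ j, gw 1 c (v j) / v j) * (∏ j, 1 / (u j : ℝ))) by ring, ← hprod]
  ring

end Pool.Agent.H27.RU
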