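import Mathlib
import Pool.Graph.R_seed8.W340.RT.SVR2
import Pool.Agent.H27.RU.CntU

/-!
# The sieve estimate for arithmetic progressions in short intervals
-/

set_option autoImplicit false

namespace Pool.Agent.H27.RU

open Finset Pool.Agent.W262.RK Pool.Agent.W372.RK2

variable {J : Type} [Fintype J] [DecidableEq J]

lemma prod_mono_set {S T : Finset ℕ} (f : ℕ → ℝ) (h : S ⊆ T) (h1 : ∀ p ∈ T, 1 ≤ f p) :
    ∏ p ∈ S, f p ≤ ∏ p ∈ T, f p := by
  classical
  rw [← prod_sdiff h]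
  have h2 : (1 : ℝ) ≤ ∏ p ∈ T \ S, f p := by
    calc (1 : ℝ) = ∏ p ∈ T \ S, (1 : ℝ) := by rw [prod_const_one]
      _ ≤ _ := prod_le_prod (fun _ _ => zero_le_one) fun p hp => h1 p (mem_sdiff.1 hp).1
  have h3 : (0 : ℝ) ≤ ∏ p ∈ S, f p := prod_nonneg fun p hp => by
    have := h1 p (h hp)
    linarith
  exact le_mul_of_one_le_left h3 h2

/-- the factor of the modulus -/
noncomputable def gq (z c q : ℕ) : ℝ :=
  ∏ p ∈ q.primeFactors.filter (fun p => z < p), (p : ℝ) / ((p : ℝ) - c)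

lemma fac_ge_one {z c p : ℕ} (hz : 2 * c + 2 ≤ z) (hp : z < p) :
    (1 : ℝ) ≤ (p : ℝ) / ((p : ℝ) - c) := by
  have h1 : (c : ℝ) + 1 ≤ p := by exact_mod_cast (by omega : c + 1 ≤ p)
  have h2 : 0 < (p : ℝ) - c := by linarith
  rw [le_div_iff₀ h2]
  have : (0 : ℝ) ≤ c := Nat.cast_nonneg c
  linarith

lemma gq_ge_one {z c q : ℕ} (hz : 2 * c + 2 ≤ z) : 1 ≤ gq z c q := by
  unfold gq
  calc (1 : ℝ) = ∏ p ∈ q.primeFactors.filter (fun p => z < p), (1 : ℝ) := by rw [prod_const_one]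
    _ ≤ _ := prod_le_prod (fun _ _ => zero_le_one)
        fun p hp => fac_ge_one hz (mem_filter.1 hp).2

/-- **the sieve estimate for a part of an arithmetic progression** -/
theorem svtA (J : Type) [Fintype J] [DecidableEq J] (z : ℕ) (hz : 2 * Fintype.card J + 2 ≤ z) :
    ∃ (C : ℝ) (K y0 : ℕ), 0 ≤ C ∧ 1 ≤ K ∧ ∀ (α β : J → ℤ), Bg α β z → ∀ (q X : ℕ) (t0 : ℤ),
      1 ≤ q → (∀ p : ℕ, p.Prime → z < p → p ∣ q → ∀ j, ¬ (p : ℤ) ∣ ff α β t0 j) →
      ∀ T : Finset ℤ, (∀ t ∈ T, ∃ n ∈ Icc 1 X, t = t0 + q * (n : ℤ)) →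
      SVT α β z (Fintype.card J) T (X * gq z (Fintype.card J) q) X C 1 K y0 := by
  classical
  obtain ⟨C, K, y0, hC, hK, hS⟩ := Pool.Agent.W340.RT.SVR2.svr2 J z hz
  refine ⟨C, K, y0, hC, hK, fun α β hB q X t0 hq hcop T hT => ?_⟩
  intro y k hy0 hzy hyK hk m r hm1 hm4 hmp
  set c := Fintype.card J with hc
  have hq0 : q ≠ 0 := by omega
  have hm0 : m ≠ 0 := by omega
  -- the modulus and `q` are coprime
  have hmq : m.Coprime q := by
    apply Nat.coprime_of_dvd
    intro p hp hpm hpq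
    obtain ⟨hzp, t, ht, j, hj⟩ := hmp p hp hpm
    apply hcop p hp hzp hpq j
    obtain ⟨n, _, rfl⟩ := hT t ht
    have h1 : ff α β t0 j = ff α β (t0 + q * (n : ℤ)) j - α j * (q * n) := by
      unfold ff
      ring
    rw [h1]
    refine dvd_sub hj ?_
    exact ((Int.natCast_dvd_natCast.2 hpq).mul_right _).mul_left _
  set T1 := T.filter (fun t : ℤ => (m : ℤ) ∣ t - r ∧ ∀ p ∈ PS z y, ¬ p ∣ m →
      ∀ j, ¬ (p : ℤ) ∣ ff α β t j) with hT1
  have hgq := gq_ge_one (q := q) hz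
  have hprodm : 0 ≤ ∏ p ∈ m.primeFactors.filter (fun p => p ∈ PS z y),
        (p : ℝ) / ((p : ℝ) - c) := prod_nonneg fun p hp =>
    zero_le_one.trans (fac_ge_one hz (mem_PS.1 (mem_filter.1 hp).2).1.1)
  rcases T1.eq_empty_or_nonempty with he | ⟨ts, hts⟩
  · rw [he, card_empty, Nat.cast_zero]
    have h1 : 0 ≤ (Real.log y) ^ c := pow_nonneg (Real.log_natCast_nonneg y) _
    positivity
  have hts1 := mem_filter.1 hts
  obtain ⟨ns, hns, hns2⟩ := hT ts hts1.1
  set α' : J → ℤ := fun j => α j * q with hα'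
  set β' : J → ℤ := fun j => α j * t0 + β j with hβ'
  have hff : ∀ (n : ℕ) (j : J), ff α' β' n j = ff α β (t0 + q * (n : ℤ)) j := by
    intro n j
    unfold ff
    simp only [hα', hβ']
    ring
  have hbd := hS X y hy0 hzy hyK α' β' m (m * q) ns hm1 (Dvd.intro _ rfl)
    (mul_ne_zero hm0 hq0) hm4 (by
      intro p hp hpM
      have hpp := (mem_PS.1 hp).2
      have hpi : Prime (p : ℤ) := Nat.prime_iff_prime_int.1 hpp
      have hpq : ¬ (p : ℤ) ∣ q := by
        intro h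
        exact hpM ((Int.natCast_dvd_natCast.1 h).mul_left _)
      have h1 := hB.2 p hpp (mem_PS.1 hp).1.1
      refine ⟨fun j h => ?_, fun j l hjl h => ?_⟩
      · rcases hpi.dvd_or_dvd h with h2 | h2
        · exact h1.1 j h2
        · exact hpq h2
      · have h2 : Res α' β' j l = q * Res α β j l := by
          unfold Res
          simp only [hα', hβ']
          ring
        rw [h2] at h
        rcases hpi.dvd_or_dvd h with h3 | h3
        · exact hpq h3
        · exact h1.2 j l hjl h3)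
  have hcard : T1.card ≤ ((Icc 1 X).filter (fun n : ℕ => n ≡ ns [MOD m] ∧ ∀ p ∈ PS z y,
      ¬ p ∣ m * q → ∀ j, ¬ (p : ℤ) ∣ ff α' β' n j)).card := by
    have himg : T1 ⊆ ((Icc 1 X).filter (fun n : ℕ => n ≡ ns [MOD m] ∧ ∀ p ∈ PS z y,
      ¬ p ∣ m * q → ∀ j, ¬ (p : ℤ) ∣ ff α' β' n j)).image (fun n : ℕ => t0 + q * (n : ℤ)) := by
      intro t ht
      have ht1 := mem_filter.1 ht
      obtain ⟨n, hn, hn2⟩ := hT t ht1.1
      rw [mem_image]
      refine ⟨n, mem_filter.2 ⟨hn, ?_, ?_⟩, hn2.symm⟩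
      · have h1 : (m : ℤ) ∣ q * ((ns : ℤ) - n) := by
          have h2 : (q : ℤ) * ((ns : ℤ) - n) = (ts - r) - (t - r) := by
            rw [hns2, hn2]
            ring
          rw [h2]
          exact dvd_sub hts1.2.1 ht1.2.1
        have h3 : IsCoprime (m : ℤ) (q : ℤ) := Nat.isCoprime_iff_coprime.2 hmq
        exact Nat.modEq_iff_dvd.2 (h3.dvd_of_dvd_mul_left h1)
      · intro p hp hpM j
        rw [hff, ← hn2]
        exact ht1.2.2 p hp (fun h => hpM (h.mul_right _)) j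
    exact (card_le_card himg).trans card_image_le
  have hprod : ∏ p ∈ (m * q).primeFactors.filter (fun p => p ∈ PS z y),
        (p : ℝ) / ((p : ℝ) - c) ≤
      (∏ p ∈ m.primeFactors.filter (fun p => p ∈ PS z y), (p : ℝ) / ((p : ℝ) - c)) *
        gq z c q := by
    have h1 : (m * q).primeFactors.filter (fun p => p ∈ PS z y) =
        (m.primeFactors.filter (fun p => p ∈ PS z y)) ∪
          (q.primeFactors.filter (fun p => p ∈ PS z y)) := by
      rw [Nat.primeFactors_mul hm0 hq0, filter_union]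
    rw [h1, prod_union]
    · refine mul_le_mul_of_nonneg_left ?_ hprodm
      unfold gq
      refine prod_mono_set _ ?_ ?_
      · intro p hp
        rw [mem_filter] at hp ⊢
        exact ⟨hp.1, (mem_PS.1 hp.2).1.1⟩
      · intro p hp
        exact fac_ge_one hz (mem_filter.1 hp).2
    · rw [disjoint_left]
      intro p hp hp'
      have h2 := Nat.prime_of_mem_primeFactors (mem_filter.1 hp).1
      have h3 := Nat.dvd_gcd (Nat.dvd_of_mem_primeFactors (mem_filter.1 hp).1)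
        (Nat.dvd_of_mem_primeFactors (mem_filter.1 hp').1)
      rw [hmq.gcd_eq_one] at h3
      exact h2.one_lt.ne' (Nat.dvd_one.1 h3)
  have hlog : 0 ≤ (Real.log y) ^ c := pow_nonneg (Real.log_natCast_nonneg y) _
  have hcard' : (T1.card : ℝ) ≤ (((Icc 1 X).filter (fun n : ℕ => n ≡ ns [MOD m] ∧ ∀ p ∈ PS z y,
      ¬ p ∣ m * q → ∀ j, ¬ (p : ℤ) ∣ ff α' β' n j)).card : ℝ) := by exact_mod_cast hcard
  refine hcard'.trans (hbd.trans ?_)
  rw [one_pow, mul_one]
  refine div_le_div_of_nonneg_right ?_ hlog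
  calc C * ((X : ℝ) / m) * ∏ p ∈ (m * q).primeFactors.filter (fun p => p ∈ PS z y),
        (p : ℝ) / ((p : ℝ) - c)
      ≤ C * ((X : ℝ) / m) * ((∏ p ∈ m.primeFactors.filter (fun p => p ∈ PS z y),
        (p : ℝ) / ((p : ℝ) - c)) * gq z c q) :=
        mul_le_mul_of_nonneg_left hprod (by positivity)
    _ = _ := by ring

end Pool.Agent.H27.RU
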