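import Mathlib
import Pool.Graph.R_seed8.W340.RT.SVR2
import Pool.Agent.H27.RU.SvA

/-!
# The sieve estimate for the integers of a short interval at which several forms are prime
-/

set_option autoImplicit false

namespace Pool.Agent.H27.RU

open Finset Pool.Agent.W262.RK Pool.Agent.W372.RK2

variable {J : Type} [Fintype J] [DecidableEq J]

/-- few values of a linear form are small -/
lemma card_small (a b : ℤ) (ha : a ≠ 0) (T : Finset ℤ) (y : ℕ) :
    (T.filter (fun t : ℤ => (a * t + b).natAbs ≤ y)).card ≤ 2 * y + 1 := by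
  have h1 : (T.filter (fun t : ℤ => (a * t + b).natAbs ≤ y)).card ≤
      (Icc (-(y : ℤ)) y).card := by
    apply card_le_card_of_injOn (fun t => a * t + b)
    · intro t ht
      have h := (mem_filter.1 (Finset.mem_coe.1 ht)).2
      rw [Finset.mem_coe, mem_Icc]
      show -(y : ℤ) ≤ a * t + b ∧ a * t + b ≤ y
      omega
    · intro t _ t' _ h
      simp only at h
      have h2 : a * t = a * t' := by linarith
      exact mul_left_cancel₀ ha h2
  refine h1.trans ?_
  rw [Int.card_Icc]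
  omega

lemma two_mul_le_four_pow (k : ℕ) : 2 * k ≤ 4 ^ k := by
  induction k with
  | zero => norm_num
  | succ n ih =>
    have h1 : 1 ≤ 4 ^ n := Nat.one_le_pow _ _ (by norm_num)
    rw [pow_succ]
    omega

/-- **the sieve estimate for prime values in short intervals** -/
theorem svtP (J I : Type) [Fintype J] [DecidableEq J] [Fintype I] [DecidableEq I] (z : ℕ)
    (hz : 2 * (Fintype.card J + Fintype.card I) + 2 ≤ z) :
    ∃ (C : ℝ) (K y0 : ℕ), 0 ≤ C ∧ 1 ≤ K ∧ ∀ (α β : J → ℤ) (γ δ : I → ℤ),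
      Bg (Sum.elim α γ) (Sum.elim β δ) z → (∀ i, γ i ≠ 0) → ∀ (X : ℕ) (t0 : ℤ),
      ∀ T : Finset ℤ, (∀ t ∈ T, (∃ n ∈ Icc 1 X, t = t0 + (n : ℤ)) ∧
        ∀ i, (γ i * t + δ i).natAbs.Prime) →
      SVT α β z (Fintype.card J + Fintype.card I) T
        (X / (Real.log X) ^ (Fintype.card I)) X C (4 ^ (Fintype.card I)) K y0 := by
  classical
  have hcard' : Fintype.card (J ⊕ I) = Fintype.card J + Fintype.card I := Fintype.card_sum
  obtain ⟨C, K, y0, hC, hK, hS⟩ := Pool.Agent.W340.RT.SVR2.svr2 (J ⊕ I) z (by rw [hcard']; exact hz)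
  rw [hcard'] at hS
  set cJ := Fintype.card J with hcJ
  set cI := Fintype.card I with hcI
  refine ⟨C + 3 * cI, K + 2 * (1 + cJ + cI), y0 + 3, by positivity, by omega,
    fun α β γ δ hB hγ X t0 T hT => ?_⟩
  intro y k hy0 hzy hyK hk m r hm1 hm4 hmp
  have hy3 : 3 ≤ y := by omega
  have hm0 : m ≠ 0 := by omega
  have hyX : y ≤ X := le_trans (Nat.le_self_pow (by omega) y) hyK
  have hX3 : 3 ≤ X := by omega
  have hXr : (3 : ℝ) ≤ X := by exact_mod_cast hX3
  have hyr : (3 : ℝ) ≤ y := by exact_mod_cast hy3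
  have hl1 : 1 < Real.log y := by
    rw [Real.lt_log_iff_exp_lt (by linarith)]
    have := Real.exp_one_lt_d9
    linarith
  have hlX1 : 1 < Real.log X := by
    rw [Real.lt_log_iff_exp_lt (by linarith)]
    have := Real.exp_one_lt_d9
    linarith
  have hly : Real.log y ≤ y := by
    have := Real.log_le_sub_one_of_pos (by linarith : (0 : ℝ) < y)
    linarith
  -- `log X ≤ 2 k log y`
  have hlX : Real.log X ≤ 2 * k * Real.log y := by
    have h1 : (X : ℝ) ≤ ((y : ℝ) + 1) ^ k := by exact_mod_cast hk.le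
    have h2 : (y : ℝ) + 1 ≤ (y : ℝ) ^ 2 := by nlinarith
    have h3 : (X : ℝ) ≤ ((y : ℝ) ^ 2) ^ k := h1.trans (pow_le_pow_left₀ (by linarith) h2 k)
    have h4 := Real.log_le_log (by linarith) h3
    rw [← pow_mul, Real.log_pow] at h4
    push_cast at h4
    exact h4
  have h2k : (2 * (k : ℝ)) ^ cI ≤ ((4 : ℝ) ^ cI) ^ k := by
    have h1 : (2 * (k : ℝ)) ≤ 4 ^ k := by exact_mod_cast two_mul_le_four_pow k
    calc (2 * (k : ℝ)) ^ cI ≤ (4 ^ k) ^ cI := pow_le_pow_left₀ (by positivity) h1 _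
      _ = ((4 : ℝ) ^ cI) ^ k := pow_right_comm _ _ _
  have hlXI : (Real.log X) ^ cI ≤ ((4 : ℝ) ^ cI) ^ k * (Real.log y) ^ cI := by
    calc (Real.log X) ^ cI ≤ (2 * k * Real.log y) ^ cI :=
          pow_le_pow_left₀ (by linarith) hlX _
      _ = (2 * (k : ℝ)) ^ cI * (Real.log y) ^ cI := by rw [mul_pow]
      _ ≤ _ := mul_le_mul_of_nonneg_right h2k (by positivity)
  set P : ℝ := ∏ p ∈ m.primeFactors.filter (fun p => p ∈ PS z y),
        (p : ℝ) / ((p : ℝ) - ((cJ + cI : ℕ) : ℝ)) with hP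
  have hP1 : 1 ≤ P := by
    rw [hP]
    calc (1 : ℝ) = ∏ p ∈ m.primeFactors.filter (fun p => p ∈ PS z y), (1 : ℝ) := by
          rw [prod_const_one]
      _ ≤ _ := prod_le_prod (fun _ _ => zero_le_one)
          fun p hp => fac_ge_one (z := z) (by omega) (mem_PS.1 (mem_filter.1 hp).2).1.1
  set T1 := T.filter (fun t : ℤ => (m : ℤ) ∣ t - r ∧ ∀ p ∈ PS z y, ¬ p ∣ m →
      ∀ j, ¬ (p : ℤ) ∣ ff α β t j) with hT1
  -- the small values
  set T2 := univ.biUnion (fun i : I => T1.filter (fun t : ℤ => (γ i * t + δ i).natAbs ≤ y))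
    with hT2
  have hT2c : T2.card ≤ cI * (2 * y + 1) := by
    refine card_biUnion_le.trans ((sum_le_sum fun i _ => card_small _ _ (hγ i) _ _).trans ?_)
    rw [sum_const, card_univ, smul_eq_mul]
  -- the large values
  have hT3c : ((T1 \ T2).card : ℝ) ≤ C * (X / m) * P / (Real.log y) ^ (cJ + cI) := by
    have hbd0 : 0 ≤ C * (X / m) * P / (Real.log y) ^ (cJ + cI) := by positivity
    rcases (T1 \ T2).eq_empty_or_nonempty with he | ⟨ts, hts⟩
    · rw [he, card_empty, Nat.cast_zero]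
      exact hbd0
    have hts1 := mem_filter.1 (mem_sdiff.1 hts).1
    obtain ⟨ns, hns, hns2⟩ := (hT ts hts1.1).1
    set α' : J ⊕ I → ℤ := Sum.elim α γ with hα'
    set β' : J ⊕ I → ℤ := fun j => α' j * t0 + Sum.elim β δ j with hβ'
    have hff : ∀ (n : ℕ) (j : J ⊕ I), ff α' β' n j =
        ff α' (Sum.elim β δ) (t0 + (n : ℤ)) j := by
      intro n j
      unfold ff
      simp only [hβ']
      ring
    have hyK' : y ^ K ≤ X := le_trans (Nat.pow_le_pow_right (by omega) (by omega)) hyK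
    have hbd := hS X y (by omega) hzy hyK' α' β' m m ns hm1 dvd_rfl hm0 hm4 (by
        intro p hp _
        have hpp := (mem_PS.1 hp).2
        have h1 := hB.2 p hpp (mem_PS.1 hp).1.1
        refine ⟨h1.1, fun j l hjl h => ?_⟩
        have h2 : Res α' β' j l = Res α' (Sum.elim β δ) j l := by
          unfold Res
          simp only [hβ']
          ring
        rw [h2] at h
        exact h1.2 j l hjl h)
    have hcard : (T1 \ T2).card ≤ ((Icc 1 X).filter (fun n : ℕ => n ≡ ns [MOD m] ∧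
        ∀ p ∈ PS z y, ¬ p ∣ m → ∀ j, ¬ (p : ℤ) ∣ ff α' β' n j)).card := by
      have himg : T1 \ T2 ⊆ ((Icc 1 X).filter (fun n : ℕ => n ≡ ns [MOD m] ∧ ∀ p ∈ PS z y,
        ¬ p ∣ m → ∀ j, ¬ (p : ℤ) ∣ ff α' β' n j)).image (fun n : ℕ => t0 + (n : ℤ)) := by
        intro t ht
        have ht0 := mem_sdiff.1 ht
        have ht1 := mem_filter.1 ht0.1
        obtain ⟨n, hn, hn2⟩ := (hT t ht1.1).1
        rw [mem_image]
        refine ⟨n, mem_filter.2 ⟨hn, ?_, ?_⟩, hn2.symm⟩
        · have h2 : ((ns : ℤ) - n) = (ts - r) - (t - r) := by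
            rw [hns2, hn2]
            ring
          exact Nat.modEq_iff_dvd.2 (h2 ▸ dvd_sub hts1.2.1 ht1.2.1)
        · intro p hp hpM j
          rw [hff, ← hn2]
          rcases j with j | i
          · exact ht1.2.2 p hp hpM j
          · intro hd
            have hd' : (p : ℤ) ∣ γ i * t + δ i := hd
            have hpr := (hT t ht1.1).2 i
            have h3 : p ∣ (γ i * t + δ i).natAbs := Int.natCast_dvd.1 hd'
            have h4 : p = (γ i * t + δ i).natAbs :=
              (Nat.prime_dvd_prime_iff_eq (mem_PS.1 hp).2 hpr).1 h3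
            apply ht0.2
            rw [hT2, mem_biUnion]
            exact ⟨i, mem_univ _, mem_filter.2 ⟨ht0.1, h4 ▸ (mem_PS.1 hp).1.2⟩⟩
      exact (card_le_card himg).trans card_image_le
    have hcT : ((T1 \ T2).card : ℝ) ≤ (((Icc 1 X).filter (fun n : ℕ => n ≡ ns [MOD m] ∧
        ∀ p ∈ PS z y, ¬ p ∣ m → ∀ j, ¬ (p : ℤ) ∣ ff α' β' n j)).card : ℝ) := by
      exact_mod_cast hcard
    exact hcT.trans hbd
  -- the two parts together
  have hT1c : (T1.card : ℝ) ≤ C * (X / m) * P / (Real.log y) ^ (cJ + cI) + cI * (2 * y + 1) := by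
    have h1 : T1.card ≤ (T1 \ T2).card + T2.card := by
      calc T1.card ≤ ((T1 \ T2) ∪ T2).card := card_le_card (by
            intro t ht
            rw [mem_union, mem_sdiff]
            by_cases h : t ∈ T2
            · exact Or.inr h
            · exact Or.inl ⟨ht, h⟩)
        _ ≤ _ := card_union_le _ _
    have h2 : (T1.card : ℝ) ≤ ((T1 \ T2).card : ℝ) + (T2.card : ℝ) := by exact_mod_cast h1
    have h3 : (T2.card : ℝ) ≤ cI * (2 * y + 1) := by exact_mod_cast hT2c
    linarith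
  have hmX : m * y ^ (1 + cJ + cI) ≤ X := by
    have h1 : (m * y ^ (1 + cJ + cI)) ^ 4 ≤ X ^ 4 := by
      calc (m * y ^ (1 + cJ + cI)) ^ 4 = m ^ 4 * (y ^ (2 * (1 + cJ + cI))) ^ 2 := by ring
        _ ≤ X * X ^ 2 := Nat.mul_le_mul hm4 (Nat.pow_le_pow_left
            (le_trans (Nat.pow_le_pow_right (by omega) (by omega)) hyK) 2)
        _ ≤ X ^ 4 := by
            have : X ^ 4 = X * X ^ 2 * X := by ring
            rw [this]
            exact Nat.le_mul_of_pos_right _ (by omega)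
    exact (Nat.pow_le_pow_iff_left (by norm_num)).1 h1
  have hmr : (0 : ℝ) < m := by exact_mod_cast (by omega : 0 < m)
  have hLX : 0 < (Real.log X) ^ cI := by positivity
  have hLy : 0 < (Real.log y) ^ cI := by positivity
  have hLJ : 0 < (Real.log y) ^ cJ := by positivity
  -- first part
  have e1 : C * (X / m) * P / (Real.log y) ^ (cJ + cI) ≤
      C * ((4 : ℝ) ^ cI) ^ k * (X / (Real.log X) ^ cI / m) * P / (Real.log y) ^ cJ := by
    rw [pow_add]
    have h1 : 1 / (Real.log y) ^ cI ≤ ((4 : ℝ) ^ cI) ^ k / (Real.log X) ^ cI := by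
      rw [div_le_div_iff₀ hLy hLX, one_mul]
      exact hlXI
    calc C * (X / m) * P / ((Real.log y) ^ cJ * (Real.log y) ^ cI)
        = (C * (X / m) * P / (Real.log y) ^ cJ) * (1 / (Real.log y) ^ cI) := by
          field_simp
      _ ≤ (C * (X / m) * P / (Real.log y) ^ cJ) * (((4 : ℝ) ^ cI) ^ k / (Real.log X) ^ cI) :=
          mul_le_mul_of_nonneg_left h1 (by positivity)
      _ = _ := by
          field_simp
  -- second part
  have e2 : (cI : ℝ) * (2 * y + 1) ≤
      3 * cI * ((4 : ℝ) ^ cI) ^ k * (X / (Real.log X) ^ cI / m) * P / (Real.log y) ^ cJ := by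
    have h1 : (m : ℝ) * (y : ℝ) ^ (1 + cJ + cI) ≤ X := by exact_mod_cast hmX
    have h2 : (Real.log y) ^ cJ ≤ (y : ℝ) ^ cJ := pow_le_pow_left₀ (by linarith) hly _
    have h3 : (Real.log y) ^ cI ≤ (y : ℝ) ^ cI := pow_le_pow_left₀ (by linarith) hly _
    have h4 : (y : ℝ) * (Real.log y) ^ cJ * (Real.log X) ^ cI * m ≤
        ((4 : ℝ) ^ cI) ^ k * X := by
      calc (y : ℝ) * (Real.log y) ^ cJ * (Real.log X) ^ cI * m
          ≤ (y : ℝ) * (y : ℝ) ^ cJ * (((4 : ℝ) ^ cI) ^ k * (y : ℝ) ^ cI) * m := by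
            refine mul_le_mul_of_nonneg_right (mul_le_mul (mul_le_mul_of_nonneg_left h2
              (by positivity)) (hlXI.trans (mul_le_mul_of_nonneg_left h3 (by positivity)))
              (by positivity) (by positivity)) (by positivity)
        _ = ((4 : ℝ) ^ cI) ^ k * (m * (y : ℝ) ^ (1 + cJ + cI)) := by
            rw [pow_add, pow_add, pow_one]
            ring
        _ ≤ _ := mul_le_mul_of_nonneg_left h1 (by positivity)
    have h5 : (y : ℝ) ≤ ((4 : ℝ) ^ cI) ^ k * (X / (Real.log X) ^ cI / m) * 1 /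
        (Real.log y) ^ cJ := by
      rw [le_div_iff₀ hLJ, mul_one]
      rw [show ((4 : ℝ) ^ cI) ^ k * (X / (Real.log X) ^ cI / m) =
        (((4 : ℝ) ^ cI) ^ k * X) / ((Real.log X) ^ cI * m) by field_simp]
      rw [le_div_iff₀ (by positivity)]
      calc (y : ℝ) * (Real.log y) ^ cJ * ((Real.log X) ^ cI * m)
          = (y : ℝ) * (Real.log y) ^ cJ * (Real.log X) ^ cI * m := by ring
        _ ≤ _ := h4
    have h6 : (y : ℝ) ≤ ((4 : ℝ) ^ cI) ^ k * (X / (Real.log X) ^ cI / m) * P /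
        (Real.log y) ^ cJ := by
      refine h5.trans (div_le_div_of_nonneg_right ?_ hLJ.le)
      exact mul_le_mul_of_nonneg_left hP1 (by positivity)
    calc (cI : ℝ) * (2 * y + 1) ≤ cI * (3 * y) := by
          refine mul_le_mul_of_nonneg_left ?_ (by positivity)
          linarith
      _ = 3 * cI * y := by ring
      _ ≤ 3 * cI * (((4 : ℝ) ^ cI) ^ k * (X / (Real.log X) ^ cI / m) * P /
        (Real.log y) ^ cJ) := mul_le_mul_of_nonneg_left h6 (by positivity)
      _ = _ := by ring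
  calc (T1.card : ℝ) ≤ C * (X / m) * P / (Real.log y) ^ (cJ + cI) + cI * (2 * y + 1) := hT1c
    _ ≤ C * ((4 : ℝ) ^ cI) ^ k * (X / (Real.log X) ^ cI / m) * P / (Real.log y) ^ cJ +
        3 * cI * ((4 : ℝ) ^ cI) ^ k * (X / (Real.log X) ^ cI / m) * P / (Real.log y) ^ cJ :=
        add_le_add e1 e2
    _ = _ := by ring

end Pool.Agent.H27.RU
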