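import Mathlib
import Pool.Agent.H27.RU.SvP

/-!
# From the master theorem to short intervals, progressions and primes
-/

set_option autoImplicit false

namespace Pool.Agent.H27.RU

open Finset Pool.Agent.W262.RK Pool.Agent.W372.RK2

variable {J : Type} [Fintype J] [DecidableEq J]

/-- the conclusion of the master theorems -/
def Master (α β : J → ℤ) (z c : ℕ) (R : ℤ → ℝ) : Prop :=
  ∀ (B : ℕ), 1 ≤ B → ∀ (C D : ℝ) (K y0 : ℕ), 0 ≤ C → 1 ≤ D → 1 ≤ K →
    ∃ (C2 : ℝ) (X0 : ℕ), 0 ≤ C2 ∧ 1 ≤ X0 ∧ ∀ (T : Finset ℤ) (S : ℝ) (X : ℕ), X0 ≤ X → 0 ≤ S →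
      (∀ t ∈ T, ∀ j, ff α β t j ≠ 0 ∧ (ff α β t j).natAbs ≤ X ^ B) →
      SVT α β z c T S X C D K y0 → ∑ t ∈ T, R t ≤ C2 * S

lemma pow_bound (θ : ℝ) (hθ : 0 < θ) : ∃ b : ℕ, 1 ≤ b ∧ ∀ u v : ℝ, 1 ≤ u → 1 ≤ v → u ^ θ ≤ v →
    u ≤ v ^ b := by
  obtain ⟨n, hn⟩ := exists_nat_ge (1 / θ)
  refine ⟨n + 1, by omega, fun u v hu hv h => ?_⟩
  have h1 : u = (u ^ θ) ^ (1 / θ) := by
    rw [← Real.rpow_mul (by linarith), mul_one_div_cancel hθ.ne', Real.rpow_one]
  calc u = (u ^ θ) ^ (1 / θ) := h1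
    _ ≤ v ^ (1 / θ) := Real.rpow_le_rpow (Real.rpow_nonneg (by linarith) _) h (by positivity)
    _ ≤ v ^ ((n + 1 : ℕ) : ℝ) := Real.rpow_le_rpow_of_exponent_le hv (by push_cast; linarith)
    _ = v ^ (n + 1) := Real.rpow_natCast _ _

omit [DecidableEq J] in
/-- the size of the values -/
lemma size_ff {α β : J → ℤ} {X b : ℕ} (hX : ∑ j, ((α j).natAbs + (β j).natAbs) ≤ X)
    (hX1 : 1 ≤ X) {t : ℤ} (ht : t.natAbs ≤ X ^ b) (j : J) :
    (ff α β t j).natAbs ≤ X ^ (b + 1) := by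
  unfold ff
  have h3 := Int.natAbs_add_le (α j * t) (β j)
  rw [Int.natAbs_mul] at h3
  have h4 := single_le_sum (f := fun j => (α j).natAbs + (β j).natAbs)
    (fun _ _ => Nat.zero_le _) (mem_univ j)
  have h6 : (α j).natAbs + (β j).natAbs ≤ X := by
    have : (α j).natAbs + (β j).natAbs ≤ ∑ j, ((α j).natAbs + (β j).natAbs) := h4
    omega
  have h7 : 1 ≤ X ^ b := Nat.one_le_pow _ _ hX1
  calc (α j * t + β j).natAbs ≤ (α j).natAbs * t.natAbs + (β j).natAbs := h3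
    _ ≤ (α j).natAbs * X ^ b + (β j).natAbs * X ^ b :=
        Nat.add_le_add (Nat.mul_le_mul_left _ ht) (Nat.le_mul_of_pos_right _ (by omega))
    _ = ((α j).natAbs + (β j).natAbs) * X ^ b := by ring
    _ ≤ X * X ^ b := Nat.mul_le_mul_right _ h6
    _ = X ^ (b + 1) := by rw [pow_succ, mul_comm]

/-- **short intervals and progressions** -/
theorem shortA {α β : J → ℤ} {z : ℕ} {R : ℤ → ℝ} (hR : ∀ t, 0 ≤ R t) (hB : Bg α β z)
    (hM : Master α β z (Fintype.card J) R) (θ : ℝ) (hθ : 0 < θ) :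
    ∃ C : ℝ, 0 ≤ C ∧ ∀ (q : ℕ) (r A : ℤ) (H : ℕ), 1 ≤ q →
      (∀ p : ℕ, p.Prime → z < p → p ∣ q → ∀ j, ¬ (p : ℤ) ∣ ff α β r j) →
      (((|A| : ℤ) : ℝ) + H) ^ θ ≤ (H : ℝ) / q →
      ∑ t ∈ (Ioc A (A + H)).filter (fun t : ℤ => t ≡ r [ZMOD q] ∧ ∀ j, ff α β t j ≠ 0), R t ≤
        C * ((H : ℝ) / q) * gq z (Fintype.card J) q := by
  classical
  obtain ⟨b, hb1, hb⟩ := pow_bound θ hθ
  have hz := hB.1
  obtain ⟨C, K, y0, hC, hK, hsv⟩ := svtA J z hz
  obtain ⟨C2, X0, hC2, hX0, hmain⟩ := hM (b + 1) (by omega) C 1 K y0 hC le_rfl hK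
  set X1 : ℕ := X0 + ∑ j, ((α j).natAbs + (β j).natAbs) with hX1
  set M : ℕ := X1 ^ b with hMdef
  set R0 : ℝ := ∑ t ∈ Icc (-(M : ℤ)) M, R t with hR0
  have hR00 : 0 ≤ R0 := sum_nonneg fun t _ => hR t
  refine ⟨R0 + 2 * C2, by positivity, fun q r A H hq hcop hsz => ?_⟩
  set T := (Ioc A (A + H)).filter (fun t : ℤ => t ≡ r [ZMOD q] ∧ ∀ j, ff α β t j ≠ 0) with hT
  have hqr : (1 : ℝ) ≤ q := by exact_mod_cast hq
  have hgq := gq_ge_one (q := q) hz
  rcases Nat.eq_zero_or_pos H with hH | hH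
  · have h1 : T = ∅ := by
      rw [hT, filter_eq_empty_iff]
      intro t ht
      rw [mem_Ioc] at ht
      omega
    rw [h1, sum_empty]
    have : (0 : ℝ) ≤ H := Nat.cast_nonneg H
    positivity
  have hHr : (1 : ℝ) ≤ H := by exact_mod_cast hH
  have hAr : (0 : ℝ) ≤ ((|A| : ℤ) : ℝ) := by exact_mod_cast abs_nonneg A
  have hu1 : (1 : ℝ) ≤ ((|A| : ℤ) : ℝ) + H := by linarith
  have hv1 : (1 : ℝ) ≤ (H : ℝ) / q := (Real.one_le_rpow hu1 hθ.le).trans hsz
  have hub := hb _ _ hu1 hv1 hsz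
  -- the first element of the progression
  set t0 : ℤ := A - (A - r) % q with ht0
  have hqz : (q : ℤ) ≠ 0 := by omega
  have hmod0 := Int.emod_nonneg (A - r) hqz
  have hmod1 := Int.emod_lt_of_pos (A - r) (by omega : (0 : ℤ) < q)
  have ht0r : (q : ℤ) ∣ t0 - r := by
    have h1 : t0 - r = (A - r) - (A - r) % q := by rw [ht0]; ring
    rw [h1]
    exact Int.dvd_self_sub_emod
  set X : ℕ := (H + (q - 1)) / q with hXdef
  have hXq : X * q ≤ H + (q - 1) := Nat.div_mul_le_self _ _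
  have hHX : H ≤ X * q := by
    have h1 : H + (q - 1) < (X + 1) * q := by
      have h2 := Nat.lt_mul_div_succ (H + (q - 1)) (show 0 < q by omega)
      rw [mul_comm]
      exact h2
    rw [add_mul, one_mul] at h1
    omega
  have hvX : (H : ℝ) / q ≤ X := by
    rw [div_le_iff₀ (by linarith)]
    exact_mod_cast hHX
  have hHq : q ≤ H := by
    rw [one_le_div (by linarith)] at hv1
    exact_mod_cast hv1
  have hX2 : (X : ℝ) ≤ 2 * ((H : ℝ) / q) := by
    have h1 : X * q ≤ 2 * H := by omega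
    have h2 : (X : ℝ) * q ≤ 2 * H := by exact_mod_cast h1
    rw [← mul_div_assoc, le_div_iff₀ (by linarith)]
    exact h2
  have hX1' : 1 ≤ X := by
    have h1 : (1 : ℝ) ≤ X := hv1.trans hvX
    exact_mod_cast h1
  have habs : ∀ t ∈ T, t.natAbs ≤ X ^ b := by
    intro t ht
    have h1 := mem_Ioc.1 (mem_filter.1 ht).1
    have h2 : (t.natAbs : ℤ) ≤ |A| + H := by
      have h3 := le_abs_self A
      have h4 := neg_abs_le A
      omega
    have h3 : (t.natAbs : ℝ) ≤ ((|A| : ℤ) : ℝ) + H := by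
      have h4 : (((t.natAbs : ℤ)) : ℝ) ≤ (((|A| + (H : ℤ)) : ℤ) : ℝ) := Int.cast_le.2 h2
      rw [Int.cast_natCast, Int.cast_add, Int.cast_natCast] at h4
      exact h4
    have h4 : ((H : ℝ) / q) ^ b ≤ (X : ℝ) ^ b := pow_le_pow_left₀ (by positivity) hvX b
    have h5 : (t.natAbs : ℝ) ≤ (X : ℝ) ^ b := h3.trans (hub.trans h4)
    rw [← Nat.cast_pow] at h5
    exact Nat.cast_le.1 h5
  rcases Nat.lt_or_ge X X1 with hXX | hXX
  · have h1 : ∑ t ∈ T, R t ≤ R0 := by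
      refine sum_le_sum_of_subset_of_nonneg ?_ (fun t _ _ => hR t)
      intro t ht
      have h2 := (habs t ht).trans (Nat.pow_le_pow_left hXX.le b)
      rw [mem_Icc]
      omega
    have h2 : (1 : ℝ) ≤ (H : ℝ) / q * gq z (Fintype.card J) q :=
      one_le_mul_of_one_le_of_one_le hv1 hgq
    calc ∑ t ∈ T, R t ≤ R0 := h1
      _ ≤ (R0 + 2 * C2) * 1 := by linarith
      _ ≤ (R0 + 2 * C2) * ((H : ℝ) / q * gq z (Fintype.card J) q) :=
          mul_le_mul_of_nonneg_left h2 (by positivity)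
      _ = _ := by ring
  · have hin : ∀ t ∈ T, ∃ n ∈ Icc 1 X, t = t0 + q * (n : ℤ) := by
      intro t ht
      have ht1 := mem_filter.1 ht
      have h1 := mem_Ioc.1 ht1.1
      have h2 : (q : ℤ) ∣ t - t0 := by
        have h3 : (q : ℤ) ∣ t - r := ht1.2.1.symm.dvd
        have h4 : t - t0 = (t - r) - (t0 - r) := by ring
        rw [h4]
        exact dvd_sub h3 ht0r
      obtain ⟨n, hn⟩ := h2
      have hn0 : 0 < n := by
        by_contra hcon
        have h5 : q * n ≤ 0 := mul_nonpos_of_nonneg_of_nonpos (by omega) (by omega)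
        omega
      have hnX : n * q ≤ H + (q - 1) := by
        have h6 : (q : ℤ) * n = t - t0 := hn.symm
        have h7 : (q : ℤ) * n = n * q := mul_comm _ _
        omega
      refine ⟨n.toNat, ?_, ?_⟩
      · rw [mem_Icc]
        refine ⟨by omega, ?_⟩
        rw [hXdef, Nat.le_div_iff_mul_le (by omega)]
        zify
        rw [Int.toNat_of_nonneg hn0.le]
        push_cast [Nat.cast_sub hq]
        exact hnX
      · rw [Int.toNat_of_nonneg hn0.le, ← hn]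
        ring
    have hcop' : ∀ p : ℕ, p.Prime → z < p → p ∣ q → ∀ j, ¬ (p : ℤ) ∣ ff α β t0 j := by
      intro p hp hzp hpq j hd
      apply hcop p hp hzp hpq j
      have h1 : ff α β r j = ff α β t0 j - α j * (t0 - r) := by
        unfold ff
        ring
      rw [h1]
      exact dvd_sub hd (((Int.natCast_dvd_natCast.2 hpq).trans ht0r).mul_left _)
    have hs := hsv α β hB q X t0 hq hcop' T hin
    have h1 := hmain T _ X (by omega) (by positivity) (fun t ht j =>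
      ⟨(mem_filter.1 ht).2.2 j, size_ff (by omega) hX1' (habs t ht) j⟩) hs
    calc ∑ t ∈ T, R t ≤ C2 * (X * gq z (Fintype.card J) q) := h1
      _ ≤ C2 * (2 * ((H : ℝ) / q) * gq z (Fintype.card J) q) := by gcongr
      _ = 2 * C2 * ((H : ℝ) / q) * gq z (Fintype.card J) q := by ring
      _ ≤ (R0 + 2 * C2) * ((H : ℝ) / q) * gq z (Fintype.card J) q := by
          have h2 : 0 ≤ (H : ℝ) / q * gq z (Fintype.card J) q := by positivity
          nlinarith

/-- **prime values in short intervals** -/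
theorem shortP {I : Type} [Fintype I] [DecidableEq I] {α β : J → ℤ} {γ δ : I → ℤ} {z : ℕ}
    {R : ℤ → ℝ} (hR : ∀ t, 0 ≤ R t) (hB : Bg (Sum.elim α γ) (Sum.elim β δ) z)
    (hγ : ∀ i, γ i ≠ 0)
    (hM : Master α β z (Fintype.card J + Fintype.card I) R) (θ : ℝ) (hθ : 0 < θ) :
    ∃ C : ℝ, 0 ≤ C ∧ ∀ (A : ℤ) (H : ℕ), 2 ≤ H → (((|A| : ℤ) : ℝ) + H) ^ θ ≤ (H : ℝ) →
      ∑ t ∈ (Ioc A (A + H)).filter (fun t : ℤ => (∀ i, (γ i * t + δ i).natAbs.Prime) ∧
        ∀ j, ff α β t j ≠ 0), R t ≤ C * ((H : ℝ) / (Real.log H) ^ (Fintype.card I)) := by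
  classical
  obtain ⟨b, hb1, hb⟩ := pow_bound θ hθ
  have hz : 2 * (Fintype.card J + Fintype.card I) + 2 ≤ z := by
    have := hB.1
    rwa [Fintype.card_sum] at this
  obtain ⟨C, K, y0, hC, hK, hsv⟩ := svtP J I z hz
  set cI := Fintype.card I with hcI
  obtain ⟨C2, X0, hC2, hX0, hmain⟩ := hM (b + 1) (by omega) C (4 ^ cI) K y0 hC
    (one_le_pow₀ (by norm_num)) hK
  set X1 : ℕ := X0 + (∑ j, ((α j).natAbs + (β j).natAbs)) + 3 with hX1
  set M : ℕ := X1 ^ b with hMdef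
  set R0 : ℝ := ∑ t ∈ Icc (-(M : ℤ)) M, R t with hR0
  have hR00 : 0 ≤ R0 := sum_nonneg fun t _ => hR t
  have hlX1 : 0 ≤ Real.log X1 := Real.log_natCast_nonneg X1
  refine ⟨R0 * (Real.log X1) ^ cI + C2, by positivity, fun A H hH hsz => ?_⟩
  set T := (Ioc A (A + H)).filter (fun t : ℤ => (∀ i, (γ i * t + δ i).natAbs.Prime) ∧
        ∀ j, ff α β t j ≠ 0) with hT
  have hHr : (2 : ℝ) ≤ H := by exact_mod_cast hH
  have hlH : 0 < Real.log H := Real.log_pos (by linarith)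
  have hAr : (0 : ℝ) ≤ ((|A| : ℤ) : ℝ) := by exact_mod_cast abs_nonneg A
  have hu1 : (1 : ℝ) ≤ ((|A| : ℤ) : ℝ) + H := by linarith
  have hub := hb _ _ hu1 (by linarith) hsz
  have habs : ∀ t ∈ T, t.natAbs ≤ H ^ b := by
    intro t ht
    have h1 := mem_Ioc.1 (mem_filter.1 ht).1
    have h2 : (t.natAbs : ℤ) ≤ |A| + H := by
      have h3 := le_abs_self A
      have h4 := neg_abs_le A
      omega
    have h3 : (t.natAbs : ℝ) ≤ ((|A| : ℤ) : ℝ) + H := by
      have h4 : (((t.natAbs : ℤ)) : ℝ) ≤ (((|A| + (H : ℤ)) : ℤ) : ℝ) := Int.cast_le.2 h2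
      rw [Int.cast_natCast, Int.cast_add, Int.cast_natCast] at h4
      exact h4
    have h5 : (t.natAbs : ℝ) ≤ (H : ℝ) ^ b := h3.trans hub
    rw [← Nat.cast_pow] at h5
    exact Nat.cast_le.1 h5
  have hW : 0 ≤ (H : ℝ) / (Real.log H) ^ cI := by positivity
  rcases Nat.lt_or_ge H X1 with hXX | hXX
  · have h1 : ∑ t ∈ T, R t ≤ R0 := by
      refine sum_le_sum_of_subset_of_nonneg ?_ (fun t _ _ => hR t)
      intro t ht
      have h2 := (habs t ht).trans (Nat.pow_le_pow_left hXX.le b)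
      rw [mem_Icc]
      omega
    have h2 : Real.log H ≤ Real.log X1 :=
      Real.log_le_log (by linarith) (by exact_mod_cast hXX.le)
    have h3 : (Real.log H) ^ cI ≤ (Real.log X1) ^ cI := pow_le_pow_left₀ hlH.le h2 _
    have h4 : 1 ≤ (Real.log X1) ^ cI * ((H : ℝ) / (Real.log H) ^ cI) := by
      rw [← mul_div_assoc, le_div_iff₀ (by positivity), one_mul]
      calc (Real.log H) ^ cI ≤ (Real.log X1) ^ cI := h3
        _ ≤ (Real.log X1) ^ cI * H := le_mul_of_one_le_right (by positivity) (by linarith)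
    calc ∑ t ∈ T, R t ≤ R0 := h1
      _ ≤ R0 * ((Real.log X1) ^ cI * ((H : ℝ) / (Real.log H) ^ cI)) :=
          le_mul_of_one_le_right hR00 h4
      _ ≤ R0 * ((Real.log X1) ^ cI * ((H : ℝ) / (Real.log H) ^ cI)) +
          C2 * ((H : ℝ) / (Real.log H) ^ cI) := le_add_of_nonneg_right (by positivity)
      _ = _ := by ring
  · have hin : ∀ t ∈ T, (∃ n ∈ Icc 1 H, t = A + (n : ℤ)) ∧
        ∀ i, (γ i * t + δ i).natAbs.Prime := by
      intro t ht
      have ht1 := mem_filter.1 ht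
      have h1 := mem_Ioc.1 ht1.1
      refine ⟨⟨(t - A).toNat, mem_Icc.2 (by omega), by omega⟩, ht1.2.1⟩
    have hs := hsv α β γ δ hB hγ H A T hin
    have h1 := hmain T _ H (by omega) hW (fun t ht j =>
      ⟨(mem_filter.1 ht).2.2 j, size_ff (by omega) (by omega) (habs t ht) j⟩) hs
    calc ∑ t ∈ T, R t ≤ C2 * ((H : ℝ) / (Real.log H) ^ cI) := h1
      _ ≤ _ := by
          have h2 : 0 ≤ R0 * (Real.log X1) ^ cI := by positivity
          nlinarith

end Pool.Agent.H27.RU
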