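import Mathlib
import Pool.Graph.R_seed8.W591.RK2.RVRU

/-!
# All moments: the sum over the squares, with a general constant `A`
-/

set_option autoImplicit false

namespace Pool.Agent.H27.RU

open Finset Pool.Agent.W262.RK Pool.Agent.W591.RK2

/-- RV with a general constant -/
theorem rvA (J : Type) [Fintype J] [DecidableEq J] (z c : ℕ) (lam A : ℝ) (hA : 1 ≤ A)
    (hz : 2 * c + 2 ≤ z) (hlam : 0 ≤ lam) : ∃ C : ℝ, ∀ y, z < y →
    ∑ v ∈ Tup J z y, (∏ j, A ^ (v j).primeFactors.card * (gw 1 c (v j) / v j)) *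
      (∏ j, (v j : ℝ)) ^ (lam / Real.log y) ≤ C := by
  refine ⟨Real.exp (Fintype.card J * (2 * A * Real.exp lam)), fun y hy => ?_⟩
  have hy3 : 3 ≤ y := by omega
  have hyr : (3 : ℝ) ≤ y := by exact_mod_cast hy3
  have hl : 0 < Real.log y := Real.log_pos (by linarith)
  set δ := lam / Real.log y with hδ
  have hδ0 : 0 ≤ δ := div_nonneg hlam hl.le
  set h : ℕ → ℝ := fun p => (A * ((1 / ((p : ℝ) - c)) / p)) * (p : ℝ) ^ δ with hh
  have hpc : ∀ p ∈ PS z y, (p : ℝ) / 2 ≤ (p : ℝ) - c ∧ (0 : ℝ) < p := by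
    intro p hp
    have h1 := (mem_PS.1 hp).1.1
    have h2 : 2 * (c : ℝ) ≤ p := by exact_mod_cast (by omega : 2 * c ≤ p)
    have h3 : (0 : ℝ) < p := by exact_mod_cast (mem_PS.1 hp).2.pos
    exact ⟨by linarith, h3⟩
  have hnn : ∀ p ∈ PS z y, 0 ≤ h p := by
    intro p hp
    obtain ⟨h1, h2⟩ := hpc p hp
    have h3 : 0 < (p : ℝ) - c := by linarith
    simp only [hh]
    positivity
  have e : ∀ v ∈ Tup J z y, (∏ j, A ^ (v j).primeFactors.card * (gw 1 c (v j) / v j)) *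
      (∏ j, (v j : ℝ)) ^ δ = ∏ j, ∏ p ∈ (v j).primeFactors, h p := by
    intro v hv
    rw [← term hv δ]
    congr 1
    refine prod_congr rfl fun j _ => ?_
    have h1 : ∏ p ∈ (v j).primeFactors, ((1 / ((p : ℝ) - c)) / p) =
        (∏ p ∈ (v j).primeFactors, 1 / ((p : ℝ) - c)) / ∏ p ∈ (v j).primeFactors, (p : ℝ) :=
      prod_div_distrib _ _
    rw [prod_mul_distrib, prod_const, h1, ← cast_eq (dv_squarefree (mem_Tup' hv j))]
    rfl
  rw [sum_congr rfl e]
  refine (gen J z y h hnn).trans (Real.exp_le_exp.2 (mul_le_mul_of_nonneg_left ?_ (Nat.cast_nonneg _)))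
  have hb : ∀ p ∈ PS z y, h p ≤ 2 * A * Real.exp lam * (1 / (p : ℝ) ^ 2) := by
    intro p hp
    obtain ⟨h1, h2⟩ := hpc p hp
    have h3 : 0 < (p : ℝ) - c := by linarith
    have h4 : (p : ℝ) ^ δ ≤ Real.exp lam := by
      have h5 : (p : ℝ) ≤ y := by exact_mod_cast (mem_PS.1 hp).1.2
      calc (p : ℝ) ^ δ ≤ (y : ℝ) ^ δ := Real.rpow_le_rpow h2.le h5 hδ0
        _ = Real.exp lam := by
          rw [Real.rpow_def_of_pos (by linarith), hδ]
          congr 1
          field_simp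
    have h6 : A * ((1 / ((p : ℝ) - c)) / p) ≤ 2 * A * (1 / (p : ℝ) ^ 2) := by
      have h7 : 1 / ((p : ℝ) - c) ≤ 2 / p := by
        rw [div_le_div_iff₀ h3 h2]
        linarith
      have h8 : (1 / ((p : ℝ) - c)) / p ≤ (2 / p) / p := div_le_div_of_nonneg_right h7 h2.le
      have h9 : (2 / (p : ℝ)) / p = 2 * (1 / (p : ℝ) ^ 2) := by
        field_simp
      have h10 := mul_le_mul_of_nonneg_left (h8.trans_eq h9) (by linarith : (0 : ℝ) ≤ A)
      linarith
    calc h p ≤ (2 * A * (1 / (p : ℝ) ^ 2)) * Real.exp lam :=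
          mul_le_mul h6 h4 (by positivity) (by positivity)
      _ = _ := by ring
  calc ∑ p ∈ PS z y, h p ≤ ∑ p ∈ PS z y, 2 * A * Real.exp lam * (1 / (p : ℝ) ^ 2) := sum_le_sum hb
    _ = 2 * A * Real.exp lam * ∑ p ∈ PS z y, 1 / (p : ℝ) ^ 2 := by rw [mul_sum]
    _ ≤ 2 * A * Real.exp lam * 1 :=
        mul_le_mul_of_nonneg_left (sum_sq_le z y (by omega)) (by positivity)
    _ = _ := mul_one _


end Pool.Agent.H27.RU
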