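import Mathlib
import Pool.Graph.R_seed8.W762.RK2.EXP4b

/-!
# All moments for the twists by products of linear forms: definitions

All the forms have the class `3` (common factors). `NBk` is the average over the signs of the
`k`-th power of the local count.
-/

set_option autoImplicit false

namespace Pool.Agent.H27.RU

open Finset Pool.Agent.W262.RK Pool.Agent.W762.RK2

/-- `k`-tuples of vectors of the plane over the field with two elements -/
abbrev Vk (k : ℕ) : Type := Fin k → Bool × Bool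

/-- the pairing of the plane with its dual -/
def dot (v x : Bool × Bool) : Bool := xor (x.1 && v.1) (x.2 && v.2)

/-- the sum of the pairings over the copies -/
def par {k : ℕ} (v x : Vk k) : Bool :=
  decide (∏ l, (if dot (v l) (x l) = true then (-1 : ℤ) else 1) = -1)

lemma prod_pm {ι : Type*} (s : Finset ι) (f : ι → ℤ) (h : ∀ i ∈ s, f i = 1 ∨ f i = -1) :
    ∏ i ∈ s, f i = 1 ∨ ∏ i ∈ s, f i = -1 := by
  classical
  induction s using Finset.induction_on with
  | empty => left; simp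
  | insert a s ha ih =>
    rw [prod_insert ha]
    rcases h a (mem_insert_self _ _) with h1 | h1 <;>
      rcases ih (fun i hi => h i (mem_insert_of_mem hi)) with h2 | h2 <;> rw [h1, h2] <;> simp

lemma sg_par {k : ℕ} (v x : Vk k) : sg (par v x) = ∏ l, sg (dot (v l) (x l)) := by
  have h1 : ∏ l, sg (dot (v l) (x l)) =
      ((∏ l, (if dot (v l) (x l) = true then (-1 : ℤ) else 1) : ℤ) : ℝ) := by
    push_cast
    refine prod_congr rfl fun l _ => ?_
    unfold sg
    split_ifs <;> norm_num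
  rw [h1]
  unfold sg par
  rcases prod_pm univ (fun l => (if dot (v l) (x l) = true then (-1 : ℤ) else 1))
    (fun l _ => by split_ifs <;> simp) with h2 | h2
  · rw [h2]; norm_num
  · rw [h2]; norm_num

variable (J : Type) [Fintype J] [DecidableEq J]

/-- the index set: `(j, v, χ)` with `χ(v) = 0` -/
def Ik (k : ℕ) : Type := {i : J × Vk k × Vk k // par i.2.1 i.2.2 = false}

instance (k : ℕ) : Fintype (Ik J k) := by unfold Ik; infer_instance

instance (k : ℕ) : DecidableEq (Ik J k) := fun a b =>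
  decidable_of_iff (a.1 = b.1) Subtype.ext_iff.symm

variable {J}

/-- the symbol `(d i / d i')` occurs if `χ_{i'}(v_i) = 1` -/
def Lk {k : ℕ} (i i' : Ik J k) : Bool := par i.1.2.1 i'.1.2.2

/-- the constant of one copy -/
def Kc (κ : Fin 3 → ℤ) (v x : Bool × Bool) : ℤ :=
  (if x.1 = true then (if v = (true, false) then κ 0 else if v = (false, true) then κ 0 * κ 1
    else if v = (true, true) then κ 1 else 1) else 1) *
  (if x.2 = true then (if v = (true, false) then κ 0 * κ 2 else if v = (false, true) then -κ 0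
    else if v = (true, true) then -κ 2 else 1) else 1)

/-- the constants -/
def κk {k : ℕ} (κ : J → Fin 3 → ℤ) (i : Ik J k) : ℤ := ∏ l, Kc (κ i.1.1) (i.1.2.1 l) (i.1.2.2 l)

/-- all the forms have the class `3` -/
def c3 (J : Type) : J → Fin 4 := fun _ => 3

/-- the average over the signs of the `k`-th power of the local count -/
noncomputable def NBk (k : ℕ) (κ : J → Fin 3 → ℤ) (s : J → ℕ) : ℝ :=
  (1 / 2) ^ (P3 (c3 J) s).card *
    ∑ E ∈ (P3 (c3 J) s).powerset, (NL (∏ j, s j) (LLs (c3 J) κ s E) : ℝ) ^ k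

/-- the sign factor -/
noncomputable def sx (b h : Bool) : ℝ := if b = true then sg h else 1

lemma loc1 (κ : Fin 3 → ℤ) {p : ℕ} (hp : p.Prime) (hk : ∀ i, ¬ (p : ℤ) ∣ κ i) (neg : Bool)
    (v : Bool × Bool) (h g : Bool) :
    ind (LL 3 κ neg p v.1 v.2 h g) =
      ∑ x : Bool × Bool, 1 / 4 * ((if neg = true then sg (dot v x) else 1) *
        (Jr (Kc κ v x) p * (sx x.1 h * sx x.2 g))) := by
  have hmul : ∀ i j, ¬ (p : ℤ) ∣ κ i * κ j := by
    intro i j hd
    rcases (Nat.prime_iff_prime_int.1 hp).dvd_or_dvd hd with h' | h'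
    · exact hk i h'
    · exact hk j h'
  have hneg : ∀ i, ¬ (p : ℤ) ∣ -κ i := fun i h' => hk i ((dvd_neg).1 h')
  have e1 : Jr (κ 0) p = sg (sg0 p (κ 0)) := Jr_dvd_ne hp (hk 0)
  have e2 : Jr (κ 0 * κ 1) p = sg (sg0 p (κ 0 * κ 1)) := Jr_dvd_ne hp (hmul 0 1)
  have e3 : Jr (κ 1) p = sg (sg0 p (κ 1)) := Jr_dvd_ne hp (hk 1)
  have e4 : Jr (κ 0 * κ 2) p = sg (sg0 p (κ 0 * κ 2)) := Jr_dvd_ne hp (hmul 0 2)
  have e5 : Jr (-κ 0) p = sg (sg0 p (-κ 0)) := Jr_dvd_ne hp (hneg 0)
  have e6 : Jr (-κ 2) p = sg (sg0 p (-κ 2)) := Jr_dvd_ne hp (hneg 2)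
  have e7 : Jr 1 p = 1 := Pool.Agent.W108.RK.Jr_one_left p
  have e8 : ∀ x : Bool × Bool, Jr (Kc κ v x) p =
      (if x.1 = true then (if v = (true, false) then Jr (κ 0) p else if v = (false, true) then
        Jr (κ 0 * κ 1) p else if v = (true, true) then Jr (κ 1) p else 1) else 1) *
      (if x.2 = true then (if v = (true, false) then Jr (κ 0 * κ 2) p else
        if v = (false, true) then Jr (-κ 0) p
        else if v = (true, true) then Jr (-κ 2) p else 1) else 1) := by
    intro x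
    unfold Kc
    rw [Pool.Agent.W108.RK.Jr_mul_left]
    congr 1 <;> split_ifs <;> first | rfl | exact e7
  simp only [e8, e1, e2, e3, e4, e5, e6]
  clear e1 e2 e3 e4 e5 e6 e7 e8 hmul hneg hk
  obtain ⟨v1, v2⟩ := v
  have key : ∀ H K : Bool, ind (h = H ∧ g = K) = 1 / 4 * ((1 + sg h * sg H) * (1 + sg g * sg K)) := by
    intro H K
    cases h <;> cases g <;> cases H <;> cases K <;> simp [ind, sg] <;> norm_num
  have hx : ∀ a b : Bool, sg (xor a b) = sg a * sg b := by
    intro a b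
    cases a <;> cases b <;> simp [sg]
  have hLL : ind (LL 3 κ neg p v1 v2 h g) = 1 / 4 *
      ((1 + sg h * (sg (v1 && neg) * (sg (v1 && !v2 && sg0 p (κ 0)) *
        (sg (!v1 && v2 && sg0 p (κ 0 * κ 1)) * sg (v1 && v2 && sg0 p (κ 1)))))) *
      (1 + sg g * (sg (v2 && neg) * (sg (v1 && !v2 && sg0 p (κ 0 * κ 2)) *
        (sg (!v1 && v2 && sg0 p (-κ 0)) * sg (v1 && v2 && sg0 p (-κ 2))))))) := by
    have h1 : LL 3 κ neg p v1 v2 h g ↔ (h = xor (v1 && neg) (xor (v1 && !v2 && sg0 p (κ 0))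
      (xor (!v1 && v2 && sg0 p (κ 0 * κ 1)) (v1 && v2 && sg0 p (κ 1)))) ∧
      g = xor (v2 && neg) (xor (v1 && !v2 && sg0 p (κ 0 * κ 2)) (xor (!v1 && v2 && sg0 p (-κ 0))
      (v1 && v2 && sg0 p (-κ 2))))) := by
      unfold LL
      simp
    have h2 : ind (LL 3 κ neg p v1 v2 h g) = ind (h = xor (v1 && neg) (xor (v1 && !v2 && sg0 p (κ 0))
      (xor (!v1 && v2 && sg0 p (κ 0 * κ 1)) (v1 && v2 && sg0 p (κ 1)))) ∧
      g = xor (v2 && neg) (xor (v1 && !v2 && sg0 p (κ 0 * κ 2)) (xor (!v1 && v2 && sg0 p (-κ 0))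
      (v1 && v2 && sg0 p (-κ 2))))) := by
      rw [propext h1]
    rw [h2, key]
    simp only [hx]
  show ind (LL 3 κ neg p v1 v2 h g) = _
  rw [hLL]
  simp only [Fintype.sum_prod_type, Fintype.sum_bool]
  have st : sg true = -1 := by simp [sg]
  have sf : sg false = 1 := by simp [sg]
  cases v1 <;> cases v2 <;> cases neg <;> simp [dot, sx, st, sf] <;> ring

end Pool.Agent.H27.RU
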