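import Pool.Graph.R_seed8.W262.RK.MA4
import Pool.Agent.H27.RU.MExp
import Pool.Agent.H27.RU.MComb

/-!
# The average of the powers of the local count
-/

set_option autoImplicit false

namespace Pool.Agent.H27.RU

open Finset Pool.Agent.W262.RK

variable {J : Type} [Fintype J] [DecidableEq J]

omit [Fintype J] [DecidableEq J] in
lemma Lk_self {k : ℕ} (i : Ik J k) : Lk i i = false := i.2

lemma Kc_ne (κ : Fin 3 → ℤ) (h : ∀ i, κ i ≠ 0) (v x : Bool × Bool) : Kc κ v x ≠ 0 := by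
  unfold Kc
  refine mul_ne_zero ?_ ?_ <;> split_ifs <;>
    simp [h]

omit [Fintype J] [DecidableEq J] in
lemma κk_ne {k : ℕ} (κ : J → Fin 3 → ℤ) (h : ∀ j i, κ j i ≠ 0) (i : Ik J k) : κk κ i ≠ 0 :=
  prod_ne_zero_iff.2 fun _ _ => Kc_ne _ (h _) _ _

/-- the average of `NBk` is bounded by `(log y) ^ |J|` -/
theorem mak (k : ℕ) (hk : 1 ≤ k) (J : Type) [Fintype J] [DecidableEq J] (κ : J → Fin 3 → ℤ)
    (c : ℕ) (hκ : ∀ j i, κ j i ≠ 0) :
    ∃ z0 : ℕ, ∀ z, z0 ≤ z → ∃ C : ℝ, ∀ y, z < y →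
      ∑ s ∈ Tup J z y, NBk k κ s * ∏ j, gw 1 c (s j) ≤
        C * (Real.log y) ^ (Fintype.card J) := by
  have hw : 0 < ((1 : ℝ) / 4) ^ k ∧ ((1 : ℝ) / 4) ^ k ≤ 1 / 2 := by
    refine ⟨by positivity, ?_⟩
    calc ((1 : ℝ) / 4) ^ k ≤ (1 / 4) ^ 1 := pow_le_pow_of_le_one (by norm_num) (by norm_num) hk
      _ ≤ 1 / 2 := by norm_num
  obtain ⟨z0, hz0⟩ := at_thm (Ik J k) (fun _ => (1 / 4) ^ k) Lk (κk κ) c
    ((Fintype.card J : ℕ) : ℝ) (fun _ => hw) Lk_self (κk_ne κ hκ) (combk k J)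
  refine ⟨max z0 (2 + ∑ j, ∑ k, (κ j k).natAbs), fun z hz => ?_⟩
  obtain ⟨C, hC⟩ := hz0 z (le_trans (le_max_left _ _) hz)
  refine ⟨C, fun y hy => ?_⟩
  have hz2 : 2 + ∑ j, ∑ k, (κ j k).natAbs ≤ z := le_trans (le_max_right _ _) hz
  rw [expk k J κ c z y hκ (fun j k => by
    have h1 := single_le_sum (f := fun k => (κ j k).natAbs) (fun _ _ => Nat.zero_le _) (mem_univ k)
    have h2 := single_le_sum (f := fun j => ∑ k, (κ j k).natAbs) (fun _ _ => Nat.zero_le _)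
      (mem_univ j)
    omega)]
  refine (le_trans (le_abs_self _) (hC y hy)).trans (le_of_eq ?_)
  rw [Real.rpow_natCast]

end Pool.Agent.H27.RU
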