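import Mathlib
import Pool.Graph.R_seed8.W262.RK.F4c
import Pool.Agent.H27.RU.AntU
import Pool.Agent.H27.RU.CntU
import Pool.Agent.H27.RU.MakK
import Pool.Agent.H27.RU.MSub

/-!
# The master theorems: averages of powers of `2 ^ rank` over sets with an upper bound sieve
-/

set_option autoImplicit false

namespace Pool.Agent.H27.RU

open Finset Pool.Agent.W262.RK Pool.Agent.W307.RT

variable {J : Type} [Fintype J] [DecidableEq J]

/-- the average over the signs of the power of the local count, with classes -/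
noncomputable def NBc (k0 : ℕ) (cls : J → Fin 4) (κ : J → Fin 3 → ℤ) (s : J → ℕ) : ℝ :=
  (1 / 2) ^ (P3 cls s).card *
    ∑ E ∈ (P3 cls s).powerset, (NL (∏ j, s j) (LLs cls κ s E) : ℝ) ^ k0

lemma Gd_of_Bg {α β : J → ℤ} {z : ℕ} (hB : Bg α β z) {t : ℤ} (h0 : ∀ j, ff α β t j ≠ 0) :
    Gd z (ff α β t) :=
  ⟨h0, fun _ hp hz _ _ hjl h => bg_not_dvd hB hp hz hjl h.1 h.2⟩

/-- the core: from the sieve to the average -/
theorem coreU (k0 : ℕ) (cls : J → Fin 4) (a : Fin 3 → ℤ) (α β : J → ℤ) (z c : ℕ)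
    (ha : ∀ k, a k ≠ 0) (hB : Big4 a α β z) (hc : 2 * c + 2 ≤ z)
    (hκ0 : ∀ j k, kap4 cls a α β j k ≠ 0) (hκz : ∀ j k, (kap4 cls a α β j k).natAbs ≤ z)
    (hF : ∀ t : ℤ, F4 cls a α β t 0 - F4 cls a α β t 1 = F4 cls a α β t 2) (C' : ℝ)
    (hsub : ∀ y, z < y → ∀ s e : J → ℕ, (fun j => s j * e j) ∈ Tup J z y →
      NBc k0 cls (kap4 cls a α β) (fun j => s j * e j) ≤
        (4 ^ k0) ^ (∑ j, (e j).primeFactors.card) * NBc k0 cls (kap4 cls a α β) s)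
    (havg : ∀ y, z < y → ∑ s ∈ Tup J z y, NBc k0 cls (kap4 cls a α β) s * ∏ j, gw 1 c (s j) ≤
      C' * (Real.log y) ^ (Fintype.card J))
    (B : ℕ) (hB1 : 1 ≤ B) (C D : ℝ) (K y0 : ℕ) (hC : 0 ≤ C) (hD : 1 ≤ D) (hK : 1 ≤ K) :
    ∃ (C2 : ℝ) (X0 : ℕ), 0 ≤ C2 ∧ 1 ≤ X0 ∧ ∀ (T : Finset ℤ) (S : ℝ) (X : ℕ), X0 ≤ X → 0 ≤ S →
      (∀ t ∈ T, ∀ j, ff α β t j ≠ 0 ∧ (ff α β t j).natAbs ≤ X ^ B) →
      SVT α β z c T S X C D K y0 →
      ∑ t ∈ T, ((2 : ℝ) ^ Module.finrank ℤ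
        (EAB (F4 cls a α β t 0) (F4 cls a α β t 1)).toAffine.Point) ^ k0 ≤ C2 * S := by
  classical
  set κ := kap4 cls a α β with hκdef
  set N := Fintype.card J with hN
  obtain ⟨C2, X0, hC20, hX01, hmain⟩ := antU Pool.Agent.W591.RK2.ru Pool.Agent.W358.RK2.gr J z c
    (NBc k0 cls κ) (C * (4 ^ (z + 2)) ^ k0) C' (D * ((16 ^ N) ^ B) ^ k0) (4 ^ k0) K y0
    (one_le_pow₀ (by norm_num)) hc
    (fun s => by
      unfold NBc
      exact mul_nonneg (by positivity) (sum_nonneg fun _ _ => by positivity))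
    (by positivity)
    (one_le_mul_of_one_le_of_one_le hD
      (one_le_pow₀ (one_le_pow₀ (one_le_pow₀ (by norm_num)))))
    hK hsub havg
  refine ⟨C2, X0, hC20, hX01, fun T S X hX hS hT hSV => ?_⟩
  refine hmain ℤ T (fun t => ff α β t) S (fun t => ((2 : ℝ) ^ Module.finrank ℤ
        (EAB (F4 cls a α β t 0) (F4 cls a α β t 1)).toAffine.Point) ^ k0) X hX hS
    (fun t ht => Gd_of_Bg hB.1 fun j => (hT t ht j).1) (fun t => by positivity) ?_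
  intro y Y k hy0 hzy hyK hk s hs v hv u hu h8 T' hT' hpat
  have hX1 : 1 ≤ X := hX01.trans hX
  have hy1 : 1 ≤ y := by omega
  set g : Finset ℕ → ℝ := fun E => (NL (∏ j, s j) (LLs cls κ s E) : ℝ) ^ k0 with hg
  have hg0 : ∀ E, 0 ≤ g E := fun E => by positivity
  set W : ℝ := (4 ^ (z + 2) * (16 ^ N) ^ (k * B) * 4 ^ (∑ j, (v j).primeFactors.card)) ^ k0
    with hW
  have hW0 : 0 ≤ W := by positivity
  have h1 : ∀ t ∈ T', ((2 : ℝ) ^ Module.finrank ℤ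
      (EAB (F4 cls a α β t 0) (F4 cls a α β t 1)).toAffine.Point) ^ k0 ≤
      W * g (neg3 cls α β t s) := by
    intro t ht
    obtain ⟨hts, htv, _⟩ := hpat t ht
    have ht' := hT t (hT' ht)
    have hts' : s1 α β z y t = s := hts
    have htv' : s2 α β z y t = v := htv
    have hr := rank4 Pool.Agent.W214.RK2.desc4 Pool.Agent.W342.RK2.xcl
      Pool.Agent.W342.RK2.locl (cls := cls) (X := X ^ B) (y := y) (k := k * B) hB ha hκ0 hκz
      (hF t) (fun j => (ht' j).1)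
      (fun j => (ht' j).2.trans (Nat.le_self_pow two_ne_zero _)) (Nat.one_le_pow _ _ hX1) hy1
      (by
        rw [pow_mul]
        exact Nat.pow_lt_pow_left hk (by omega))
    rw [hts', htv'] at hr
    show _ ≤ _ * (NL (∏ j, s j) (LLs cls κ s (neg3 cls α β t s)) : ℝ) ^ k0
    rw [hW, ← mul_pow]
    refine pow_le_pow_left₀ (by positivity) ?_ k0
    exact_mod_cast hr
  have hneg : ∀ t ∈ T', neg3 cls α β t s ∈ (P3 cls s).powerset := by
    intro t _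
    rw [mem_powerset]
    exact filter_subset _ _
  have h2 : ∑ t ∈ T', g (neg3 cls α β t s) =
      ∑ E ∈ (P3 cls s).powerset, ((T'.filter (fun t : ℤ => neg3 cls α β t s = E)).card : ℝ) * g E := by
    rw [← sum_fiberwise_of_maps_to hneg]
    refine sum_congr rfl fun E _ => ?_
    rw [← nsmul_eq_mul, ← sum_const]
    refine sum_congr rfl fun t ht => ?_
    rw [(mem_filter.1 ht).2]
  set Q : ℝ := C * D ^ k * S * (1 / 2) ^ (P3 cls s).card * (∏ j, gw 1 c (s j)) *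
        (∏ j, gw 1 c (v j) / v j) * (∏ j, 1 / (u j : ℝ)) / (Real.log y) ^ N with hQ
  have h3 : ∀ E ∈ (P3 cls s).powerset,
      ((T'.filter (fun t : ℤ => neg3 cls α β t s = E)).card : ℝ) * g E ≤ Q * g E := by
    intro E _
    refine mul_le_mul_of_nonneg_right ?_ (hg0 E)
    refine le_trans ?_ (cntU hB.1 hc hC hD hS hSV cls hy0 hzy hyK hk hs hv hu h8 E)
    have h4 : T'.filter (fun t : ℤ => neg3 cls α β t s = E) ⊆
        T.filter (fun t : ℤ => s1 α β z y t = s ∧ s2 α β z y t = v ∧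
          (∀ j, (u j : ℤ) ∣ ff α β t j) ∧ neg3 cls α β t s = E) := by
      intro t ht
      rw [mem_filter] at ht
      rw [mem_filter]
      obtain ⟨hts, htv, htu⟩ := hpat t ht.1
      exact ⟨hT' ht.1, hts, htv, htu, ht.2⟩
    exact_mod_cast card_le_card h4
  calc ∑ t ∈ T', ((2 : ℝ) ^ Module.finrank ℤ
          (EAB (F4 cls a α β t 0) (F4 cls a α β t 1)).toAffine.Point) ^ k0
      ≤ ∑ t ∈ T', W * g (neg3 cls α β t s) := sum_le_sum h1
    _ = W * ∑ E ∈ (P3 cls s).powerset,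
            ((T'.filter (fun t : ℤ => neg3 cls α β t s = E)).card : ℝ) * g E := by
        rw [← mul_sum, h2]
    _ ≤ W * ∑ E ∈ (P3 cls s).powerset, Q * g E :=
        mul_le_mul_of_nonneg_left (sum_le_sum h3) hW0
    _ = _ := by
        have e1 : NBc k0 cls κ s = (1 / 2) ^ (P3 cls s).card *
          ∑ E ∈ (P3 cls s).powerset, g E := rfl
        have e2 : (∏ j, ((4 : ℝ) ^ k0) ^ (v j).primeFactors.card * (gw 1 c (v j) / v j)) =
            (4 ^ (∑ j, (v j).primeFactors.card)) ^ k0 * ∏ j, (gw 1 c (v j) / v j) := by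
          rw [prod_mul_distrib, prod_pow_eq_pow_sum, ← pow_mul, ← pow_mul, mul_comm k0]
        have e4 : (((16 : ℝ) ^ N) ^ (k * B)) ^ k0 = ((((16 ^ N) ^ B) ^ k0)) ^ k := by
          rw [← pow_mul, ← pow_mul, ← pow_mul, ← pow_mul, ← pow_mul]
          congr 1
          ring
        rw [← mul_sum, e1, e2, hQ, hW, mul_pow, mul_pow, mul_pow, e4]
        ring

/-- a bound for the bad primes -/
lemma big_z (cls : J → Fin 4) (a : Fin 3 → ℤ) (α β : J → ℤ) (ha : ∀ k, a k ≠ 0)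
    (hα : ∀ j, α j ≠ 0) (hR : ∀ j l, j ≠ l → Res α β j l ≠ 0) (c z0 : ℕ) :
    ∃ z : ℕ, z0 ≤ z ∧ Big4 a α β z ∧ 2 * c + 2 ≤ z ∧
      ∀ j k, (kap4 cls a α β j k).natAbs ≤ z := by
  classical
  set κ := kap4 cls a α β with hκdef
  set z : ℕ := z0 + (2 * Fintype.card J + 2) + (2 * c + 2) + ∑ k, (a k).natAbs +
    ∑ j, (α j).natAbs + ∑ j, ∑ l, (Res α β j l).natAbs + ∑ j, ∑ k, (κ j k).natAbs with hz
  refine ⟨z, by omega, ⟨⟨by omega, fun p hp hzp => ⟨fun j h => ?_, fun j l hjl h => ?_⟩⟩,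
      fun p hp hzp k h => ?_⟩, by omega, fun j k => ?_⟩
  · have h1 := Nat.le_of_dvd (Int.natAbs_pos.2 (hα j)) (Int.natCast_dvd.1 h)
    have h2 := single_le_sum (f := fun j => (α j).natAbs) (fun _ _ => Nat.zero_le _) (mem_univ j)
    omega
  · have h1 := Nat.le_of_dvd (Int.natAbs_pos.2 (hR j l hjl)) (Int.natCast_dvd.1 h)
    have h2 := single_le_sum (f := fun l => (Res α β j l).natAbs) (fun _ _ => Nat.zero_le _)
      (mem_univ l)
    have h3 := single_le_sum (f := fun j => ∑ l, (Res α β j l).natAbs) (fun _ _ => Nat.zero_le _)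
      (mem_univ j)
    omega
  · have h1 := Nat.le_of_dvd (Int.natAbs_pos.2 (ha k)) (Int.natCast_dvd.1 h)
    have h2 := single_le_sum (f := fun k => (a k).natAbs) (fun _ _ => Nat.zero_le _) (mem_univ k)
    omega
  · have h1 := single_le_sum (f := fun k => (κ j k).natAbs) (fun _ _ => Nat.zero_le _) (mem_univ k)
    have h2 := single_le_sum (f := fun j => ∑ k, (κ j k).natAbs) (fun _ _ => Nat.zero_le _)
      (mem_univ j)
    omega

/-- **the master theorem for the first moment**, general classes -/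
theorem mst1 (cls : J → Fin 4) (n : ℕ)
    (hn : ∀ k, k ≠ 3 → (univ.filter (fun j => cls j = k)).card = n)
    (a : Fin 3 → ℤ) (α β : J → ℤ) (ha : ∀ k, a k ≠ 0) (hα : ∀ j, α j ≠ 0)
    (hR : ∀ j l, j ≠ l → Res α β j l ≠ 0)
    (hF : ∀ t : ℤ, F4 cls a α β t 0 - F4 cls a α β t 1 = F4 cls a α β t 2) (c z1 : ℕ) :
    ∃ z : ℕ, z1 ≤ z ∧ Bg α β z ∧ 2 * c + 2 ≤ z ∧ ∀ (B : ℕ), 1 ≤ B → ∀ (C D : ℝ) (K y0 : ℕ),
      0 ≤ C → 1 ≤ D → 1 ≤ K →
      ∃ (C2 : ℝ) (X0 : ℕ), 0 ≤ C2 ∧ 1 ≤ X0 ∧ ∀ (T : Finset ℤ) (S : ℝ) (X : ℕ), X0 ≤ X → 0 ≤ S →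
      (∀ t ∈ T, ∀ j, ff α β t j ≠ 0 ∧ (ff α β t j).natAbs ≤ X ^ B) →
      SVT α β z c T S X C D K y0 →
      ∑ t ∈ T, (2 : ℝ) ^ Module.finrank ℤ
        (EAB (F4 cls a α β t 0) (F4 cls a α β t 1)).toAffine.Point ≤ C2 * S := by
  classical
  have hκ0 : ∀ j k, kap4 cls a α β j k ≠ 0 := kap4_ne cls a α β hα ha hR
  obtain ⟨z0, hz0⟩ := ma4 Pool.Agent.W762.RK2.exp4 Pool.Agent.W125.RK2.comb4 cls
    (kap4 cls a α β) n c hn hκ0
  obtain ⟨z, hzz, hB, hcz, hκz⟩ := big_z cls a α β ha hα hR c (max z0 z1)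
  obtain ⟨C', hC'⟩ := hz0 z (le_trans (le_max_left _ _) hzz)
  have e : ∀ s, NBc 1 cls (kap4 cls a α β) s = NB cls (kap4 cls a α β) s := by
    intro s
    unfold NBc NB
    simp only [pow_one]
  refine ⟨z, le_trans (le_max_right _ _) hzz, hB.1, hcz, fun B hB1 C D K y0 hC hD hK => ?_⟩
  obtain ⟨C2, X0, h1, h2, h3⟩ := coreU 1 cls a α β z c ha hB hcz hκ0 hκz hF C'
    (fun y hy s e' hse => by
      rw [e, e, pow_one]
      exact Pool.Agent.W125.RK2.subb_of Pool.Agent.W125.RK2.sub4 Pool.Agent.W342.RK2.xcl J cls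
        (kap4 cls a α β) z y (by omega) hκ0 hκz s e' hse)
    (fun y hy => by
      simp only [e]
      exact hC' y hy) B hB1 C D K y0 hC hD hK
  refine ⟨C2, X0, h1, h2, fun T S X hX hS hT hSV => ?_⟩
  have h4 := h3 T S X hX hS hT hSV
  simp only [pow_one] at h4
  exact h4

/-- **the master theorem for the moments**, twists -/
theorem mstk (k0 : ℕ) (hk0 : 1 ≤ k0) (a : Fin 3 → ℤ) (α β : J → ℤ) (ha : ∀ k, a k ≠ 0)
    (hα : ∀ j, α j ≠ 0) (hR : ∀ j l, j ≠ l → Res α β j l ≠ 0)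
    (hF : ∀ t : ℤ, F4 (c3 J) a α β t 0 - F4 (c3 J) a α β t 1 = F4 (c3 J) a α β t 2) (c z1 : ℕ) :
    ∃ z : ℕ, z1 ≤ z ∧ Bg α β z ∧ 2 * c + 2 ≤ z ∧ ∀ (B : ℕ), 1 ≤ B → ∀ (C D : ℝ) (K y0 : ℕ),
      0 ≤ C → 1 ≤ D → 1 ≤ K →
      ∃ (C2 : ℝ) (X0 : ℕ), 0 ≤ C2 ∧ 1 ≤ X0 ∧ ∀ (T : Finset ℤ) (S : ℝ) (X : ℕ), X0 ≤ X → 0 ≤ S →
      (∀ t ∈ T, ∀ j, ff α β t j ≠ 0 ∧ (ff α β t j).natAbs ≤ X ^ B) →
      SVT α β z c T S X C D K y0 →
      ∑ t ∈ T, ((2 : ℝ) ^ Module.finrank ℤ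
        (EAB (F4 (c3 J) a α β t 0) (F4 (c3 J) a α β t 1)).toAffine.Point) ^ k0 ≤ C2 * S := by
  classical
  have hκ0 : ∀ j k, kap4 (c3 J) a α β j k ≠ 0 := kap4_ne (c3 J) a α β hα ha hR
  obtain ⟨z0, hz0⟩ := mak k0 hk0 J (kap4 (c3 J) a α β) c hκ0
  obtain ⟨z, hzz, hB, hcz, hκz⟩ := big_z (c3 J) a α β ha hα hR c (max z0 z1)
  obtain ⟨C', hC'⟩ := hz0 z (le_trans (le_max_left _ _) hzz)
  refine ⟨z, le_trans (le_max_right _ _) hzz, hB.1, hcz, fun B hB1 C D K y0 hC hD hK => ?_⟩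
  exact coreU k0 (c3 J) a α β z c ha hB hcz hκ0 hκz hF C'
    (fun y hy s e hse => subbk Pool.Agent.W125.RK2.sub4 Pool.Agent.W342.RK2.xcl k0 J
      (kap4 (c3 J) a α β) z y (by omega) hκ0 hκz s e hse)
    hC' B hB1 C D K y0 hC hD hK

end Pool.Agent.H27.RU
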