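import Mathlib
import Pool.Graph.R_seed8.W261.RT.Iso
import Pool.Agent.H27.RU.Mst
import Pool.Agent.H27.RU.Short

/-!
# Twists by the values of polynomials with rational roots: reduction to integral linear forms
-/

set_option autoImplicit false

namespace Pool.Agent.H27.RU

open Finset Pool.Agent.W262.RK

/-- the product of the linear forms -/
def Pf {J : Type} [Fintype J] (α β : J → ℤ) (t : ℤ) : ℤ := ∏ j, (α j * t + β j)

lemma F4_c3 {J : Type} [Fintype J] [DecidableEq J] (a : Fin 3 → ℤ) (α β : J → ℤ) (t : ℤ)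
    (k : Fin 3) : F4 (c3 J) a α β t k = a k * Pf α β t := by
  unfold F4 Pf
  have h : fs (c3 J) k = univ := by
    unfold fs
    exact Finset.filter_true_of_mem fun _ _ => Or.inr rfl
  rw [h]
  rfl

/-- the quadratic twist by `d` of the curve `y² = x (x - a) (x - b)` -/
def Tw (a b d : ℚ) : WeierstrassCurve ℚ := ⟨0, -(a + b) * d, 0, a * b * d ^ 2, 0⟩

/-- the rank -/
noncomputable def rk (W : WeierstrassCurve ℚ) : ℕ := Module.finrank ℤ W.toAffine.Point

/-- scaling by a square does not change the rank -/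
lemma rk_scale (A B : ℤ) (a b d w : ℚ) (hw : w ≠ 0) (h1 : a * d = A * w ^ 2)
    (h2 : b * d = B * w ^ 2) : rk (Tw a b d) = rk (EAB A B) := by
  obtain ⟨e⟩ := Pool.Agent.W261.RT.iso (-((A : ℚ) + B)) ((A : ℚ) * B) 0 0 w⁻¹ (inv_ne_zero hw)
  have h3 : (⟨0, (-((A : ℚ) + B) + 3 * 0) / w⁻¹ ^ 2, 0, ((A : ℚ) * B + 2 * 0 * (-((A : ℚ) + B)) +
      3 * 0 ^ 2) / w⁻¹ ^ 4, (0 + 0 * ((A : ℚ) * B) + 0 ^ 2 * (-((A : ℚ) + B)) + 0 ^ 3) / w⁻¹ ^ 6⟩ :
      WeierstrassCurve ℚ) = Tw a b d := by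
    unfold Tw
    ext
    · rfl
    · simp only [inv_pow, div_inv_eq_mul]
      linear_combination h1 + h2
    · rfl
    · simp only [inv_pow, div_inv_eq_mul]
      linear_combination (-(A : ℚ) * w ^ 2) * h2 + (-(b * d)) * h1
    · simp
  rw [h3] at e
  unfold rk
  exact (LinearEquiv.finrank_eq e.toIntLinearEquiv).symm

/-- the product over the odd roots -/
lemma odd_roots (D : Polynomial ℚ) (hD : D ≠ 0) (hs : D.Splits) :
    ∃ (S : Finset ℚ) (q : ℚ) (G : ℚ → ℚ), q ≠ 0 ∧ (∀ ρ ∈ S, D.eval ρ = 0) ∧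
      ∀ t : ℚ, D.eval t ≠ 0 → G t ≠ 0 ∧
      D.eval t = q * (∏ ρ ∈ S, (t - ρ)) * (G t) ^ 2 := by
  classical
  refine ⟨D.roots.toFinset.filter (fun ρ => Odd (D.roots.count ρ)), D.leadingCoeff,
    fun t => ∏ ρ ∈ D.roots.toFinset, (t - ρ) ^ (D.roots.count ρ / 2),
    Polynomial.leadingCoeff_ne_zero.2 hD, fun ρ hρ => (Polynomial.mem_roots hD).1
      (Multiset.mem_toFinset.1 (mem_filter.1 hρ).1), fun t ht => ?_⟩
  have h1 := hs.eval_eq_prod_roots t
  constructor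
  · refine prod_ne_zero_iff.2 fun ρ hρ => pow_ne_zero _ fun h => ?_
    apply ht
    rw [sub_eq_zero] at h
    rw [h]
    exact (Polynomial.mem_roots hD).1 (Multiset.mem_toFinset.1 hρ)
  · rw [h1, Finset.prod_multiset_map_count, mul_assoc, ← prod_pow, prod_filter,
      ← prod_mul_distrib]
    congr 1
    refine prod_congr rfl fun ρ _ => ?_
    rw [← pow_mul]
    rcases Nat.even_or_odd' (D.roots.count ρ) with ⟨m, hm | hm⟩
    · rw [if_neg (by rw [hm]; simp), hm, one_mul]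
      congr 1
      omega
    · rw [if_pos (by rw [hm]; exact odd_two_mul_add_one m), hm, ← pow_succ']
      congr 1
      omega

/-- **the reduction** -/
theorem red (a b : ℚ) (ha : a ≠ 0) (hb : b ≠ 0) (hab : a ≠ b)
    (D : Polynomial ℚ) (hD : D ≠ 0) (hs : D.Splits) :
    ∃ (J : Type) (_ : Fintype J) (_ : DecidableEq J) (α β : J → ℤ) (A B : ℤ),
      A ≠ 0 ∧ B ≠ 0 ∧ A ≠ B ∧ (∀ j, α j ≠ 0) ∧ (∀ j l, j ≠ l → Res α β j l ≠ 0) ∧
      (∀ j, D.eval (-(β j : ℚ) / α j) = 0) ∧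
      ∀ t : ℤ, D.eval (t : ℚ) ≠ 0 → (∀ j, ff α β t j ≠ 0) ∧
        rk (Tw a b (D.eval (t : ℚ))) =
          Module.finrank ℤ (EAB (A * Pf α β t) (B * Pf α β t)).toAffine.Point := by
  classical
  obtain ⟨S, q, G, hq, hroot, hG⟩ := odd_roots D hD hs
  set J : Type := {ρ : ℚ // ρ ∈ S}
  set α : J → ℤ := fun ρ => (ρ.1.den : ℤ) with hα
  set β : J → ℤ := fun ρ => -ρ.1.num with hβ
  set d : ℚ := ∏ ρ ∈ S, (ρ.den : ℚ) with hd
  have hd0 : d ≠ 0 := prod_ne_zero_iff.2 fun ρ _ => by exact_mod_cast ρ.den_ne_zero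
  have hPf : ∀ t : ℤ, ∏ ρ ∈ S, ((t : ℚ) - ρ) = (Pf α β t : ℚ) / d := by
    intro t
    rw [hd, eq_div_iff hd0, ← prod_mul_distrib]
    unfold Pf
    push_cast
    rw [← Finset.prod_coe_sort S (fun ρ => ((t : ℚ) - ρ) * (ρ.den : ℚ))]
    refine prod_congr rfl fun ρ _ => ?_
    simp only [hα, hβ]
    push_cast
    have h1 := Rat.mul_den_eq_num ρ.1
    linear_combination -h1
  set x : ℚ := a * (q / d) with hx
  set y : ℚ := b * (q / d) with hy
  have hx0 : x ≠ 0 := mul_ne_zero ha (div_ne_zero hq hd0)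
  have hy0 : y ≠ 0 := mul_ne_zero hb (div_ne_zero hq hd0)
  have hxy : x ≠ y := fun h => hab (mul_right_cancel₀ (div_ne_zero hq hd0) h)
  set N : ℚ := (x.den : ℚ) * y.den with hN
  have hxd : (x.den : ℚ) ≠ 0 := by exact_mod_cast x.den_ne_zero
  have hyd : (y.den : ℚ) ≠ 0 := by exact_mod_cast y.den_ne_zero
  have hN0 : N ≠ 0 := mul_ne_zero hxd hyd
  set A : ℤ := x.num * x.den * y.den ^ 2 with hA
  set B : ℤ := y.num * y.den * x.den ^ 2 with hB
  have hAx : (A : ℚ) = x * N ^ 2 := by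
    rw [hA, hN]
    push_cast
    have h1 := Rat.mul_den_eq_num x
    linear_combination (-(x.den : ℚ) * y.den ^ 2) * h1
  have hBy : (B : ℚ) = y * N ^ 2 := by
    rw [hB, hN]
    push_cast
    have h1 := Rat.mul_den_eq_num y
    linear_combination (-(y.den : ℚ) * x.den ^ 2) * h1
  have hA0 : A ≠ 0 := by
    intro h
    have : (A : ℚ) = 0 := by exact_mod_cast h
    rw [hAx] at this
    exact mul_ne_zero hx0 (pow_ne_zero _ hN0) this
  have hB0 : B ≠ 0 := by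
    intro h
    have : (B : ℚ) = 0 := by exact_mod_cast h
    rw [hBy] at this
    exact mul_ne_zero hy0 (pow_ne_zero _ hN0) this
  have hAB : A ≠ B := by
    intro h
    have h1 : (A : ℚ) = B := by exact_mod_cast h
    rw [hAx, hBy] at h1
    exact hxy (mul_right_cancel₀ (pow_ne_zero _ hN0) h1)
  refine ⟨J, inferInstance, inferInstance, α, β, A, B, hA0, hB0, hAB,
    (fun ρ => by
      simp only [hα]
      exact_mod_cast ρ.1.den_ne_zero),
    (fun ρ σ h h2 => by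
      unfold Res at h2
      simp only [hα, hβ] at h2
      apply h
      apply Subtype.ext
      have h3 : (ρ.1.num : ℚ) * σ.1.den = σ.1.num * ρ.1.den := by
        have h4 : ρ.1.num * (σ.1.den : ℤ) = σ.1.num * (ρ.1.den : ℤ) := by linarith
        exact_mod_cast h4
      have h5 : (ρ.1.den : ℚ) ≠ 0 := by exact_mod_cast ρ.1.den_ne_zero
      have h6 : (σ.1.den : ℚ) ≠ 0 := by exact_mod_cast σ.1.den_ne_zero
      rw [← Rat.num_div_den ρ.1, ← Rat.num_div_den σ.1, div_eq_div_iff h5 h6]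
      exact h3),
    (fun ρ => by
      simp only [hα, hβ]
      push_cast
      rw [neg_neg, Rat.num_div_den]
      exact hroot ρ.1 ρ.2), fun t ht => ?_⟩
  obtain ⟨hG0, hGe⟩ := hG t ht
  have hne : Pf α β t ≠ 0 := by
    intro h
    rw [hPf, h] at hGe
    apply ht
    rw [hGe]
    simp
  refine ⟨fun j => ?_, ?_⟩
  · unfold Pf at hne
    exact prod_ne_zero_iff.1 hne j (mem_univ j)
  · refine rk_scale _ _ a b _ (G t / N) (div_ne_zero hG0 hN0) ?_ ?_
    · rw [hGe, hPf]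
      push_cast
      rw [hAx, hx]
      field_simp
    · rw [hGe, hPf]
      push_cast
      rw [hBy, hy]
      field_simp

lemma gq_one (z c : ℕ) : gq z c 1 = 1 := by
  unfold gq
  simp

/-- one factor -/
lemma fac_le {N p : ℕ} (hp : 2 * N + 2 ≤ p) : (p : ℝ) / ((p : ℝ) - N) ≤
    ((p : ℝ) / ((p : ℝ) - 1)) ^ N * (1 + (N : ℝ) ^ 2 / (p : ℝ) ^ 2) := by
  have hpr : 2 * (N : ℝ) + 2 ≤ p := by exact_mod_cast hp
  have hN0 : (0 : ℝ) ≤ N := Nat.cast_nonneg N
  have hp0 : (0 : ℝ) < p := by linarith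
  have h1 : (0 : ℝ) < (p : ℝ) - 1 := by linarith
  have h2 : (0 : ℝ) < (p : ℝ) - N := by linarith
  set x : ℝ := (N : ℝ) / p with hx
  have hx0 : 0 ≤ x := by positivity
  have hx1 : x ≤ 1 / 2 := by
    rw [hx, div_le_iff₀ hp0]
    linarith
  have e1 : (1 - 1 / (p : ℝ)) ^ N ≤ Real.exp (-x) := by
    have h3 : 1 - 1 / (p : ℝ) ≤ Real.exp (-(1 / (p : ℝ))) := by
      have := Real.add_one_le_exp (-(1 / (p : ℝ)))
      linarith
    have h4 : (0 : ℝ) ≤ 1 - 1 / (p : ℝ) := by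
      rw [sub_nonneg, div_le_one hp0]
      linarith
    calc (1 - 1 / (p : ℝ)) ^ N ≤ (Real.exp (-(1 / (p : ℝ)))) ^ N := pow_le_pow_left₀ h4 h3 N
      _ = Real.exp (-x) := by
          rw [← Real.exp_nat_mul, hx]
          congr 1
          ring
  have e2 : Real.exp (-x) ≤ (1 - x) * (1 + x ^ 2) := by
    have h5 : 1 + x + x ^ 2 / 2 ≤ Real.exp x := by
      have := Real.quadratic_le_exp_of_nonneg hx0
      linarith
    have h6 : Real.exp (-x) * Real.exp x = 1 := by rw [← Real.exp_add]; simp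
    have h7 : 0 < Real.exp (-x) := Real.exp_pos _
    have h8 : Real.exp (-x) * (1 + x + x ^ 2 / 2) ≤ 1 := by
      calc Real.exp (-x) * (1 + x + x ^ 2 / 2) ≤ Real.exp (-x) * Real.exp x :=
            mul_le_mul_of_nonneg_left h5 h7.le
        _ = 1 := h6
    have h9 : 1 ≤ ((1 - x) * (1 + x ^ 2)) * (1 + x + x ^ 2 / 2) := by
      nlinarith [mul_nonneg hx0 hx0, mul_nonneg (mul_nonneg hx0 hx0) hx0,
        mul_nonneg (mul_nonneg (mul_nonneg hx0 hx0) hx0) hx0,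
        mul_nonneg (mul_nonneg (mul_nonneg hx0 hx0) hx0) (sub_nonneg.2 hx1),
        mul_nonneg (mul_nonneg hx0 hx0) (sub_nonneg.2 hx1)]
    have h10 : 0 < 1 + x + x ^ 2 / 2 := by positivity
    exact le_of_mul_le_mul_right (h8.trans h9) h10
  have e3 : (1 - 1 / (p : ℝ)) ^ N ≤ (1 - x) * (1 + x ^ 2) := e1.trans e2
  have e4 : ((p : ℝ) / ((p : ℝ) - 1)) ^ N * (1 - 1 / (p : ℝ)) ^ N = 1 := by
    rw [← mul_pow]
    have : (p : ℝ) / ((p : ℝ) - 1) * (1 - 1 / (p : ℝ)) = 1 := by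
      field_simp
    rw [this, one_pow]
  have e5 : (p : ℝ) / ((p : ℝ) - N) = 1 / (1 - x) := by
    rw [hx]
    field_simp
  have h11 : 0 < 1 - x := by linarith
  have h12 : 0 ≤ ((p : ℝ) / ((p : ℝ) - 1)) ^ N := by positivity
  have h13 : (N : ℝ) ^ 2 / (p : ℝ) ^ 2 = x ^ 2 := by rw [hx, div_pow]
  rw [e5, h13, div_le_iff₀ h11]
  calc (1 : ℝ) = ((p : ℝ) / ((p : ℝ) - 1)) ^ N * (1 - 1 / (p : ℝ)) ^ N := e4.symm
    _ ≤ ((p : ℝ) / ((p : ℝ) - 1)) ^ N * ((1 - x) * (1 + x ^ 2)) :=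
        mul_le_mul_of_nonneg_left e3 h12
    _ = _ := by ring

/-- `q / φ(q)` as a product -/
lemma prod_totient {q : ℕ} (hq : 1 ≤ q) :
    ∏ p ∈ q.primeFactors, (p : ℝ) / ((p : ℝ) - 1) = (q : ℝ) / (q.totient : ℝ) := by
  have hφ : (0 : ℝ) < q.totient := by exact_mod_cast Nat.totient_pos.2 (by omega)
  rw [eq_div_iff hφ.ne']
  have h2 : (q.totient : ℚ) = q * ∏ p ∈ q.primeFactors, (1 - (p : ℚ)⁻¹) :=
    Nat.totient_eq_mul_prod_factors q
  have h3 : (q.totient : ℝ) = q * ∏ p ∈ q.primeFactors, (1 - (p : ℝ)⁻¹) := by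
    have h4 : (((q.totient : ℚ)) : ℝ) = ((q * ∏ p ∈ q.primeFactors, (1 - (p : ℚ)⁻¹) : ℚ) : ℝ) := by
      rw [h2]
    push_cast at h4
    exact h4
  rw [h3, mul_left_comm, ← prod_mul_distrib]
  have h5 : ∏ p ∈ q.primeFactors, ((p : ℝ) / ((p : ℝ) - 1) * (1 - (p : ℝ)⁻¹)) = 1 := by
    refine prod_eq_one fun p hp => ?_
    have h6 : (2 : ℝ) ≤ p := by exact_mod_cast (Nat.prime_of_mem_primeFactors hp).two_le
    have h7 : (p : ℝ) - 1 ≠ 0 := by linarith
    have h8 : (p : ℝ) ≠ 0 := by linarith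
    field_simp
  rw [h5, mul_one]

/-- the factor of the modulus is at most a constant times `(q / φ(q)) ^ N` -/
lemma gq_le (N : ℕ) : ∃ C : ℝ, 1 ≤ C ∧ ∀ z q : ℕ, 2 * N + 2 ≤ z → 1 ≤ q →
    gq z N q ≤ C * ((q : ℝ) / (q.totient : ℝ)) ^ N := by
  refine ⟨Real.exp ((N : ℝ) ^ 2 * 2), Real.one_le_exp (by positivity), fun z q hz hq => ?_⟩
  have h1 : gq z N q ≤ ∏ p ∈ q.primeFactors.filter (fun p => z < p),
      (((p : ℝ) / ((p : ℝ) - 1)) ^ N * (1 + (N : ℝ) ^ 2 / (p : ℝ) ^ 2)) := by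
    unfold gq
    refine prod_le_prod (fun p hp => zero_le_one.trans (fac_ge_one hz (mem_filter.1 hp).2))
      fun p hp => fac_le ?_
    have := (mem_filter.1 hp).2
    omega
  rw [prod_mul_distrib] at h1
  have hfac : ∀ p ∈ q.primeFactors, 1 ≤ (p : ℝ) / ((p : ℝ) - 1) := by
    intro p hp
    have h2 : (2 : ℝ) ≤ p := by exact_mod_cast (Nat.prime_of_mem_primeFactors hp).two_le
    rw [le_div_iff₀ (by linarith)]
    linarith
  have h2 : ∏ p ∈ q.primeFactors.filter (fun p => z < p), ((p : ℝ) / ((p : ℝ) - 1)) ^ N ≤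
      ((q : ℝ) / (q.totient : ℝ)) ^ N := by
    rw [← prod_totient hq, ← prod_pow]
    exact prod_mono_set _ (filter_subset _ _) fun p hp => one_le_pow₀ (hfac p hp)
  have h3 : ∏ p ∈ q.primeFactors.filter (fun p => z < p), (1 + (N : ℝ) ^ 2 / (p : ℝ) ^ 2) ≤
      Real.exp ((N : ℝ) ^ 2 * 2) := by
    calc ∏ p ∈ q.primeFactors.filter (fun p => z < p), (1 + (N : ℝ) ^ 2 / (p : ℝ) ^ 2)
        ≤ ∏ p ∈ q.primeFactors.filter (fun p => z < p),
            Real.exp ((N : ℝ) ^ 2 / (p : ℝ) ^ 2) := by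
          refine prod_le_prod (fun p _ => by positivity) fun p _ => ?_
          rw [add_comm]
          exact Real.add_one_le_exp _
      _ = Real.exp (∑ p ∈ q.primeFactors.filter (fun p => z < p), (N : ℝ) ^ 2 / (p : ℝ) ^ 2) := by
          rw [Real.exp_sum]
      _ ≤ Real.exp ((N : ℝ) ^ 2 * 2) := by
          apply Real.exp_le_exp.2
          have h4 : ∑ p ∈ q.primeFactors.filter (fun p => z < p), (N : ℝ) ^ 2 / (p : ℝ) ^ 2 =
              (N : ℝ) ^ 2 * ∑ p ∈ q.primeFactors.filter (fun p => z < p), 1 / (p : ℝ) ^ 2 := by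
            rw [mul_sum]
            exact sum_congr rfl fun p _ => by ring
          rw [h4]
          refine mul_le_mul_of_nonneg_left ?_ (by positivity)
          have h5 : ∑ p ∈ q.primeFactors.filter (fun p => z < p), 1 / (p : ℝ) ^ 2 ≤
              ∑ p ∈ PS z q, 1 / (p : ℝ) ^ 2 := by
            refine sum_le_sum_of_subset_of_nonneg ?_ fun p _ _ => by positivity
            intro p hp
            rw [mem_filter] at hp
            have h6 := Nat.prime_of_mem_primeFactors hp.1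
            exact mem_PS.2 ⟨⟨hp.2, Nat.le_of_dvd (by omega) (Nat.dvd_of_mem_primeFactors hp.1)⟩, h6⟩
          have h7 := Pool.Agent.W591.RK2.sum_sq_le z q (by omega)
          linarith
  refine h1.trans ?_
  rw [mul_comm (Real.exp _)]
  exact mul_le_mul h2 h3 (prod_nonneg fun p _ => by positivity) (by positivity)

end Pool.Agent.H27.RU
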