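import Mathlib
import Pool.Agent.H27.RU.Red

/-!
# Short intervals and progressions: twists and general families
-/

set_option autoImplicit false

namespace Pool.Agent.H27.RU

open Finset Pool.Agent.W262.RK

/-- the master property for the twists -/
theorem twMaster (k : ℕ) (hk : 1 ≤ k) {J : Type} [Fintype J] [DecidableEq J] (A B : ℤ)
    (hA : A ≠ 0) (hB : B ≠ 0) (hAB : A ≠ B) (α β : J → ℤ) (hα : ∀ j, α j ≠ 0)
    (hR : ∀ j l, j ≠ l → Res α β j l ≠ 0) (c z1 : ℕ) :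
    ∃ z : ℕ, z1 ≤ z ∧ Bg α β z ∧ 2 * c + 2 ≤ z ∧
      Master α β z c (fun t => ((2 : ℝ) ^ Module.finrank ℤ
        (EAB (A * Pf α β t) (B * Pf α β t)).toAffine.Point) ^ k) := by
  classical
  set a : Fin 3 → ℤ := ![A, B, A - B] with ha
  have ha0 : ∀ k, a k ≠ 0 := by
    intro k
    fin_cases k
    · exact hA
    · exact hB
    · exact sub_ne_zero.2 hAB
  obtain ⟨z, h1, h2, h3, h4⟩ := mstk k hk a α β ha0 hα hR (fun t => by
        rw [F4_c3, F4_c3, F4_c3, ← sub_mul]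
        rfl) c z1
  refine ⟨z, h1, h2, h3, fun B0 hB0 C D K y0 hC hD hK => ?_⟩
  obtain ⟨C2, X0, g1, g2, g3⟩ := h4 B0 hB0 C D K y0 hC hD hK
  refine ⟨C2, X0, g1, g2, fun T S X hX hS hT hSV => ?_⟩
  have g4 := g3 T S X hX hS hT hSV
  refine le_trans (le_of_eq ?_) g4
  refine sum_congr rfl fun t _ => ?_
  rw [F4_c3, F4_c3]
  rfl

/-- the number of the odd roots -/
lemma card_roots_le {J : Type} [Fintype J] [DecidableEq J] (D : Polynomial ℚ) (hD : D ≠ 0)
    (α β : J → ℤ) (hα : ∀ j, α j ≠ 0) (hR : ∀ j l, j ≠ l → Res α β j l ≠ 0)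
    (hroot : ∀ j, D.eval (-(β j : ℚ) / α j) = 0) : Fintype.card J ≤ D.natDegree := by
  classical
  have h1 : (univ : Finset J).card ≤ D.roots.toFinset.card := by
    apply card_le_card_of_injOn (fun j => -(β j : ℚ) / α j)
    · intro j _
      rw [Finset.mem_coe, Multiset.mem_toFinset]
      exact (Polynomial.mem_roots hD).2 (hroot j)
    · intro j _ l _ h
      by_contra hne
      apply hR j l hne
      have h2 : (α j : ℚ) ≠ 0 := by exact_mod_cast hα j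
      have h3 : (α l : ℚ) ≠ 0 := by exact_mod_cast hα l
      simp only at h
      rw [div_eq_div_iff h2 h3] at h
      unfold Res
      have h4 : ((α j * β l - α l * β j : ℤ) : ℚ) = 0 := by
        push_cast
        linarith
      exact_mod_cast h4
  rw [card_univ] at h1
  exact h1.trans ((Multiset.toFinset_card_le _).trans (Polynomial.card_roots' D))

/-- **twists by the values of a polynomial in a progression in a short interval** -/
theorem twA (k : ℕ) (a b : ℚ) (ha : a ≠ 0) (hb : b ≠ 0) (hab : a ≠ b) (D : Polynomial ℚ)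
    (hD : D ≠ 0) (hs : D.Splits) (θ : ℝ) (hθ : 0 < θ) :
    ∃ C : ℝ, 0 ≤ C ∧ ∀ (q H : ℕ) (r A : ℤ), 1 ≤ q →
      (∀ ρ : ℚ, D.eval ρ = 0 → IsCoprime ((ρ.den : ℤ) * r - ρ.num) (q : ℤ)) →
      (((|A| : ℤ) : ℝ) + H) ^ θ ≤ (H : ℝ) / q →
      ∑ t ∈ (Ioc A (A + H)).filter (fun t : ℤ => t ≡ r [ZMOD q] ∧ D.eval (t : ℚ) ≠ 0),
        ((2 : ℝ) ^ rk (Tw a b (D.eval (t : ℚ)))) ^ k ≤
          C * ((H : ℝ) / q) * ((q : ℝ) / (q.totient : ℝ)) ^ D.natDegree := by
  classical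
  obtain ⟨J, _, _, α, β, A0, B0, hA0, hB0, hAB0, hα, hR, hroot, hred⟩ := red a b ha hb hab D hD hs
  obtain ⟨z, -, hBg, hz, hM⟩ := twMaster (k + 1) (by omega) A0 B0 hA0 hB0 hAB0 α β hα hR
    (Fintype.card J) 0
  obtain ⟨C1, hC1, hmain⟩ := shortA (fun t => by positivity) hBg hM θ hθ
  obtain ⟨C2, hC2, hg⟩ := gq_le (Fintype.card J)
  refine ⟨C1 * C2, by positivity, fun q H r A hq hcop hsz => ?_⟩
  have h1 := hmain q r A H hq (by
    intro p hp hzp hpq j hd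
    have hpi : Prime (p : ℤ) := Nat.prime_iff_prime_int.1 hp
    set ρ : ℚ := -(β j : ℚ) / α j with hρ
    have hαj : (α j : ℚ) ≠ 0 := by exact_mod_cast hα j
    have e1 : (α j : ℚ) * ρ.num = -(β j : ℚ) * ρ.den := by
      have e2 : (ρ.num : ℚ) = ρ * ρ.den := (Rat.mul_den_eq_num ρ).symm
      rw [e2, hρ]
      rw [← hρ]
      rw [← mul_assoc, hρ, mul_div_cancel₀ _ hαj]
    have e3 : α j * ρ.num = -(β j) * ρ.den := by exact_mod_cast e1
    have e4 : α j * ((ρ.den : ℤ) * r - ρ.num) = ρ.den * ff α β r j := by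
      unfold ff
      linear_combination -e3
    have e5 : (p : ℤ) ∣ α j * ((ρ.den : ℤ) * r - ρ.num) := by
      rw [e4]
      exact hd.mul_left _
    rcases hpi.dvd_or_dvd e5 with h | h
    · exact (hBg.2 p hp hzp).1 j h
    · have h2 := hcop ρ (hroot j)
      have h3 : IsUnit (p : ℤ) := h2.isUnit_of_dvd' h (Int.natCast_dvd_natCast.2 hpq)
      exact hpi.not_isUnit h3) hsz
  have hT : (Ioc A (A + H)).filter (fun t : ℤ => t ≡ r [ZMOD q] ∧ D.eval (t : ℚ) ≠ 0) ⊆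
      (Ioc A (A + H)).filter (fun t : ℤ => t ≡ r [ZMOD q] ∧ ∀ j, ff α β t j ≠ 0) := by
    intro t ht
    rw [mem_filter] at ht ⊢
    exact ⟨ht.1, ht.2.1, (hred t ht.2.2).1⟩
  have hφ : (0 : ℝ) < q.totient := by exact_mod_cast Nat.totient_pos.2 (by omega)
  have hqφ : 1 ≤ (q : ℝ) / (q.totient : ℝ) := by
    rw [one_le_div hφ]
    exact_mod_cast Nat.totient_le q
  have hcard := card_roots_le D hD α β hα hR hroot
  calc ∑ t ∈ (Ioc A (A + H)).filter (fun t : ℤ => t ≡ r [ZMOD q] ∧ D.eval (t : ℚ) ≠ 0),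
        ((2 : ℝ) ^ rk (Tw a b (D.eval (t : ℚ)))) ^ k
      ≤ ∑ t ∈ (Ioc A (A + H)).filter (fun t : ℤ => t ≡ r [ZMOD q] ∧ D.eval (t : ℚ) ≠ 0),
        ((2 : ℝ) ^ Module.finrank ℤ
          (EAB (A0 * Pf α β t) (B0 * Pf α β t)).toAffine.Point) ^ (k + 1) := by
        refine sum_le_sum fun t ht => ?_
        rw [(hred t (mem_filter.1 ht).2.2).2]
        exact pow_le_pow_right₀ (one_le_pow₀ (by norm_num)) (by omega)
    _ ≤ ∑ t ∈ (Ioc A (A + H)).filter (fun t : ℤ => t ≡ r [ZMOD q] ∧ ∀ j, ff α β t j ≠ 0),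
        ((2 : ℝ) ^ Module.finrank ℤ
          (EAB (A0 * Pf α β t) (B0 * Pf α β t)).toAffine.Point) ^ (k + 1) :=
        sum_le_sum_of_subset_of_nonneg hT fun t _ _ => by positivity
    _ ≤ C1 * ((H : ℝ) / q) * gq z (Fintype.card J) q := h1
    _ ≤ C1 * ((H : ℝ) / q) * (C2 * ((q : ℝ) / (q.totient : ℝ)) ^ (Fintype.card J)) :=
        mul_le_mul_of_nonneg_left (hg z q hz hq) (by positivity)
    _ ≤ C1 * ((H : ℝ) / q) * (C2 * ((q : ℝ) / (q.totient : ℝ)) ^ D.natDegree) := by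
        refine mul_le_mul_of_nonneg_left (mul_le_mul_of_nonneg_left ?_ (by linarith))
          (by positivity)
        exact pow_le_pow_right₀ hqφ hcard
    _ = _ := by ring

/-- the curve `y² = x (x - A) (x - B)` over `ℚ` -/
def E (A B : ℤ) : WeierstrassCurve ℚ := ⟨0, -((A : ℚ) + B), 0, (A : ℚ) * B, 0⟩

/-- `F k (t) = a k * (∏ i, (γ i * t + δ i)) * ∏ i, (α k i * t + β k i)` -/
def F {n m : ℕ} (a : Fin 3 → ℤ) (γ δ : Fin m → ℤ) (α β : Fin 3 → Fin n → ℤ) (k : Fin 3)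
    (t : ℤ) : ℤ :=
  a k * (∏ i, (γ i * t + δ i)) * ∏ i, (α k i * t + β k i)

/-- the rank of the curve of the family -/
noncomputable def RF {n m : ℕ} (a : Fin 3 → ℤ) (γ δ : Fin m → ℤ) (α β : Fin 3 → Fin n → ℤ)
    (t : ℤ) : ℝ := (2 : ℝ) ^ Module.finrank ℤ (E (F a γ δ α β 0 t) (F a γ δ α β 1 t)).toAffine.Point

/-- **the master property for the general families** -/
theorem famMaster (n m : ℕ) (a : Fin 3 → ℤ) (γ δ : Fin m → ℤ) (α β : Fin 3 → Fin n → ℤ)
    (ha : ∀ k, a k ≠ 0) (hα : ∀ k i, α k i ≠ 0) (hγ : ∀ i, γ i ≠ 0)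
    (h1 : ∀ k i l j, (k, i) ≠ (l, j) → α k i * β l j ≠ α l j * β k i)
    (h2 : ∀ i j, i ≠ j → γ i * δ j ≠ γ j * δ i)
    (h3 : ∀ k i j, α k i * δ j ≠ γ j * β k i)
    (hF : ∀ t : ℤ, F a γ δ α β 0 t - F a γ δ α β 1 t = F a γ δ α β 2 t) (c z1 : ℕ) :
    ∃ z : ℕ, z1 ≤ z ∧
      Bg (Sum.elim (fun j : Fin 3 × Fin n => α j.1 j.2) γ)
        (Sum.elim (fun j : Fin 3 × Fin n => β j.1 j.2) δ) z ∧ 2 * c + 2 ≤ z ∧
      Master (Sum.elim (fun j : Fin 3 × Fin n => α j.1 j.2) γ)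
        (Sum.elim (fun j : Fin 3 × Fin n => β j.1 j.2) δ) z c (RF a γ δ α β) := by
  classical
  set cls : (Fin 3 × Fin n) ⊕ Fin m → Fin 4 := Sum.elim (fun j => j.1.castSucc) (fun _ => 3)
    with hcls
  set A : (Fin 3 × Fin n) ⊕ Fin m → ℤ := Sum.elim (fun j => α j.1 j.2) γ with hA
  set B : (Fin 3 × Fin n) ⊕ Fin m → ℤ := Sum.elim (fun j => β j.1 j.2) δ with hB
  have hcs : ∀ (k : Fin 3), k.castSucc ≠ (3 : Fin 4) := by decide
  have hfs : ∀ k : Fin 3, fs cls k =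
      (univ.image (fun i : Fin n => (Sum.inl (k, i) : (Fin 3 × Fin n) ⊕ Fin m))) ∪
      (univ.image (fun i : Fin m => (Sum.inr i : (Fin 3 × Fin n) ⊕ Fin m))) := by
    intro k
    ext j
    unfold fs
    rw [mem_filter, mem_union, mem_image, mem_image]
    rcases j with ⟨l, i⟩ | i
    · simp only [hcls, Sum.elim_inl, mem_univ, true_and, hcs, or_false, reduceCtorEq,
        exists_false, Sum.inl.injEq, Prod.mk.injEq]
      constructor
      · intro h
        exact ⟨i, (Fin.castSucc_injective _ h).symm, rfl⟩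
      · rintro ⟨i', h, _⟩
        rw [h]
    · simp only [hcls, Sum.elim_inr, mem_univ, true_and, or_true, reduceCtorEq, exists_false,
        Sum.inr.injEq, exists_eq]
  have hFF : ∀ (t : ℤ) (k : Fin 3), F4 cls a A B t k = F a γ δ α β k t := by
    intro t k
    unfold F4 F
    rw [hfs, prod_union, prod_image (fun i _ j _ hij => by simpa using hij),
      prod_image (fun i _ j _ hij => by simpa using hij)]
    · simp only [ff, hA, hB, Sum.elim_inl, Sum.elim_inr]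
      ring
    · rw [disjoint_left]
      intro j hj hj'
      rw [mem_image] at hj hj'
      obtain ⟨_, _, rfl⟩ := hj
      obtain ⟨_, _, h⟩ := hj'
      exact absurd h (by simp)
  have hcard : ∀ k : Fin 4, k ≠ 3 → (univ.filter (fun j => cls j = k)).card = n := by
    intro k hk
    have hk' : ∃ k' : Fin 3, k = k'.castSucc := by
      revert k
      decide
    obtain ⟨k', rfl⟩ := hk'
    have h : univ.filter (fun j => cls j = k'.castSucc) =
        univ.image (fun i : Fin n => (Sum.inl (k', i) : (Fin 3 × Fin n) ⊕ Fin m)) := by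
      ext j
      rw [mem_filter, mem_image]
      rcases j with ⟨l, i⟩ | i
      · simp only [hcls, Sum.elim_inl, mem_univ, true_and, Sum.inl.injEq, Prod.mk.injEq]
        constructor
        · intro h
          exact ⟨i, (Fin.castSucc_injective _ h).symm, rfl⟩
        · rintro ⟨i', h, _⟩
          rw [h]
      · simp only [hcls, Sum.elim_inr, mem_univ, true_and, reduceCtorEq, exists_false, iff_false]
        exact fun h => hcs k' h.symm
    rw [h, card_image_of_injective _ (fun i j hij => by simpa using hij)]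
    simp
  obtain ⟨z, g1, g2, g3, g4⟩ := mst1 cls n hcard a A B ha
    (by
      rintro (j | j)
      · exact hα _ _
      · exact hγ _)
    (by
      rintro (⟨k, i⟩ | i) (⟨l, j⟩ | j) hne
      · exact sub_ne_zero.2 (h1 k i l j (by simpa using hne))
      · exact sub_ne_zero.2 (h3 k i j)
      · exact sub_ne_zero.2 (fun h => h3 l j i h.symm)
      · exact sub_ne_zero.2 (h2 i j (by simpa using hne)))
    (fun t => by rw [hFF, hFF, hFF]; exact hF t) c z1
  refine ⟨z, g1, g2, g3, fun B0 hB0 C D K y0 hC hD hK => ?_⟩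
  obtain ⟨C2, X0, e1, e2, e3⟩ := g4 B0 hB0 C D K y0 hC hD hK
  refine ⟨C2, X0, e1, e2, fun T S X hX hS hT hSV => ?_⟩
  have e4 := e3 T S X hX hS hT hSV
  refine le_trans (le_of_eq ?_) e4
  refine sum_congr rfl fun t _ => ?_
  rw [hFF, hFF]
  rfl

/-- **general families in short intervals** -/
theorem famA (n m : ℕ) (a : Fin 3 → ℤ) (γ δ : Fin m → ℤ) (α β : Fin 3 → Fin n → ℤ)
    (ha : ∀ k, a k ≠ 0) (hα : ∀ k i, α k i ≠ 0) (hγ : ∀ i, γ i ≠ 0)
    (h1 : ∀ k i l j, (k, i) ≠ (l, j) → α k i * β l j ≠ α l j * β k i)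
    (h2 : ∀ i j, i ≠ j → γ i * δ j ≠ γ j * δ i)
    (h3 : ∀ k i j, α k i * δ j ≠ γ j * β k i)
    (hF : ∀ t : ℤ, F a γ δ α β 0 t - F a γ δ α β 1 t = F a γ δ α β 2 t) (θ : ℝ) (hθ : 0 < θ) :
    ∃ C : ℝ, 0 ≤ C ∧ ∀ (H : ℕ) (A : ℤ), (((|A| : ℤ) : ℝ) + H) ^ θ ≤ (H : ℝ) →
      ∑ t ∈ Ioc A (A + H), RF a γ δ α β t ≤ C * H := by
  classical
  obtain ⟨z, -, hBg, hz, hM⟩ := famMaster n m a γ δ α β ha hα hγ h1 h2 h3 hF
    (Fintype.card ((Fin 3 × Fin n) ⊕ Fin m)) 0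
  set A' : (Fin 3 × Fin n) ⊕ Fin m → ℤ := Sum.elim (fun j => α j.1 j.2) γ with hA'
  set B' : (Fin 3 × Fin n) ⊕ Fin m → ℤ := Sum.elim (fun j => β j.1 j.2) δ with hB'
  have hR0 : ∀ t, 0 ≤ RF a γ δ α β t := fun t => by unfold RF; positivity
  obtain ⟨C1, hC1, hmain⟩ := shortA hR0 hBg hM θ hθ
  have hA0 : ∀ j, A' j ≠ 0 := by
    rintro (j | j)
    · exact hα _ _
    · exact hγ _
  -- the zeros
  set T0 : ℕ := ∑ j, (B' j).natAbs with hT0
  have hzero : ∀ t : ℤ, (¬ ∀ j, ff A' B' t j ≠ 0) → t ∈ Icc (-(T0 : ℤ)) T0 := by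
    intro t ht
    push Not at ht
    obtain ⟨j, hj⟩ := ht
    unfold ff at hj
    have g1 : (B' j).natAbs = (A' j).natAbs * t.natAbs := by
      have g2 : B' j = -(A' j * t) := by linarith
      rw [g2, Int.natAbs_neg, Int.natAbs_mul]
    have g3 := single_le_sum (f := fun j => (B' j).natAbs) (fun _ _ => Nat.zero_le _) (mem_univ j)
    have g4 : t.natAbs ≤ (A' j).natAbs * t.natAbs :=
      Nat.le_mul_of_pos_left _ (Int.natAbs_pos.2 (hA0 j))
    have g5 : t.natAbs ≤ T0 := by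
      rw [hT0]
      have g3' : (B' j).natAbs ≤ ∑ j, (B' j).natAbs := g3
      omega
    rw [mem_Icc]
    omega
  set D : ℝ := ∑ t ∈ Icc (-(T0 : ℤ)) T0, RF a γ δ α β t with hD
  have hD0 : 0 ≤ D := sum_nonneg fun t _ => hR0 t
  refine ⟨C1 + D, add_nonneg hC1 hD0, fun H A hsz => ?_⟩
  rcases Nat.eq_zero_or_pos H with hH | hH
  · subst hH
    simp
  have hHr : (1 : ℝ) ≤ H := by exact_mod_cast hH
  have e1 := hmain 1 0 A H le_rfl (by
    intro p hp hzp hp1
    exact absurd (Nat.dvd_one.1 hp1) hp.one_lt.ne') (by simpa using hsz)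
  simp only [gq_one, mul_one, Nat.cast_one, div_one] at e1
  have e2 : ∑ t ∈ Ioc A (A + H), RF a γ δ α β t =
      ∑ t ∈ (Ioc A (A + H)).filter (fun t : ℤ => ∀ j, ff A' B' t j ≠ 0), RF a γ δ α β t +
      ∑ t ∈ (Ioc A (A + H)).filter (fun t : ℤ => ¬ ∀ j, ff A' B' t j ≠ 0), RF a γ δ α β t :=
    (sum_filter_add_sum_filter_not _ _ _).symm
  have e3 : ∑ t ∈ (Ioc A (A + H)).filter (fun t : ℤ => ¬ ∀ j, ff A' B' t j ≠ 0),
      RF a γ δ α β t ≤ D := by
    refine sum_le_sum_of_subset_of_nonneg ?_ (fun t _ _ => hR0 t)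
    intro t ht
    exact hzero t (mem_filter.1 ht).2
  have e4 : (Ioc A (A + H)).filter (fun t : ℤ => ∀ j, ff A' B' t j ≠ 0) =
      (Ioc A (A + H)).filter (fun t : ℤ => t ≡ 0 [ZMOD 1] ∧ ∀ j, ff A' B' t j ≠ 0) := by
    refine filter_congr fun t _ => ?_
    constructor
    · intro h
      exact ⟨Int.modEq_one, h⟩
    · exact fun h => h.2
  rw [e2, e4]
  have e5 : D ≤ D * H := le_mul_of_one_le_right hD0 hHr
  calc _ ≤ C1 * (H : ℝ) + D := add_le_add e1 e3
    _ ≤ (C1 + D) * H := by linarith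

end Pool.Agent.H27.RU
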