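import Mathlib
import Pool.Agent.H27.RU.FinA

/-!
# Primes and prime tuples in short intervals: twists and general families
-/

set_option autoImplicit false

namespace Pool.Agent.H27.RU

open Finset Pool.Agent.W262.RK

lemma bg_large {J : Type} [Fintype J] [DecidableEq J] (α β : J → ℤ) (hα : ∀ j, α j ≠ 0)
    (hR : ∀ j l, j ≠ l → Res α β j l ≠ 0) : ∃ z1 : ℕ, ∀ z, z1 ≤ z → Bg α β z := by
  classical
  refine ⟨(2 * Fintype.card J + 2) + ∑ j, (α j).natAbs + ∑ j, ∑ l, (Res α β j l).natAbs,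
    fun z hz => ⟨by omega, fun p hp hzp => ⟨fun j h => ?_, fun j l hjl h => ?_⟩⟩⟩
  · have h1 := Nat.le_of_dvd (Int.natAbs_pos.2 (hα j)) (Int.natCast_dvd.1 h)
    have h2 := single_le_sum (f := fun j => (α j).natAbs) (fun _ _ => Nat.zero_le _) (mem_univ j)
    have h3 : (α j).natAbs ≤ ∑ j, (α j).natAbs := h2
    omega
  · have h1 := Nat.le_of_dvd (Int.natAbs_pos.2 (hR j l hjl)) (Int.natCast_dvd.1 h)
    have h2 : (Res α β j l).natAbs ≤ ∑ l, (Res α β j l).natAbs :=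
      single_le_sum (f := fun l => (Res α β j l).natAbs) (fun _ _ => Nat.zero_le _) (mem_univ l)
    have h3 : ∑ l, (Res α β j l).natAbs ≤ ∑ j, ∑ l, (Res α β j l).natAbs :=
      single_le_sum (f := fun j => ∑ l, (Res α β j l).natAbs) (fun _ _ => Nat.zero_le _)
        (mem_univ j)
    omega

/-- **general families at the prime values in short intervals** -/
theorem famB (n m r : ℕ) (a : Fin 3 → ℤ) (γ δ : Fin m → ℤ) (α β : Fin 3 → Fin n → ℤ)
    (u v : Fin r → ℤ)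
    (ha : ∀ k, a k ≠ 0) (hα : ∀ k i, α k i ≠ 0) (hγ : ∀ i, γ i ≠ 0) (hu : ∀ i, u i ≠ 0)
    (h1 : ∀ k i l j, (k, i) ≠ (l, j) → α k i * β l j ≠ α l j * β k i)
    (h2 : ∀ i j, i ≠ j → γ i * δ j ≠ γ j * δ i)
    (h3 : ∀ k i j, α k i * δ j ≠ γ j * β k i)
    (h4 : ∀ i j, i ≠ j → u i * v j ≠ u j * v i)
    (h5 : ∀ i j, γ i * v j ≠ u j * δ i)
    (h6 : ∀ k i j, α k i * v j ≠ u j * β k i)
    (hF : ∀ t : ℤ, F a γ δ α β 0 t - F a γ δ α β 1 t = F a γ δ α β 2 t) (θ : ℝ) (hθ : 0 < θ) :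
    ∃ C : ℝ, 0 ≤ C ∧ ∀ (H : ℕ) (A : ℤ), 2 ≤ H → (((|A| : ℤ) : ℝ) + H) ^ θ ≤ (H : ℝ) →
      ∑ t ∈ (Ioc A (A + H)).filter (fun t : ℤ => ∀ i, (u i * t + v i).natAbs.Prime),
        RF a γ δ α β t ≤ C * ((H : ℝ) / (Real.log H) ^ r) := by
  classical
  set A' : (Fin 3 × Fin n) ⊕ Fin m → ℤ := Sum.elim (fun j => α j.1 j.2) γ with hA'
  set B' : (Fin 3 × Fin n) ⊕ Fin m → ℤ := Sum.elim (fun j => β j.1 j.2) δ with hB'
  obtain ⟨z1, hz1⟩ := bg_large (Sum.elim A' u) (Sum.elim B' v)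
    (by
      rintro ((j | j) | j)
      · exact hα _ _
      · exact hγ _
      · exact hu _)
    (by
      rintro ((⟨k, i⟩ | i) | i) ((⟨l, j⟩ | j) | j) hne
      · exact sub_ne_zero.2 (h1 k i l j (by simpa using hne))
      · exact sub_ne_zero.2 (h3 k i j)
      · exact sub_ne_zero.2 (h6 k i j)
      · exact sub_ne_zero.2 (fun h => h3 l j i h.symm)
      · exact sub_ne_zero.2 (h2 i j (by simpa using hne))
      · exact sub_ne_zero.2 (h5 i j)
      · exact sub_ne_zero.2 (fun h => h6 l j i h.symm)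
      · exact sub_ne_zero.2 (fun h => h5 j i h.symm)
      · exact sub_ne_zero.2 (h4 i j (by simpa using hne)))
  obtain ⟨z, hzz, hBg, hz, hM⟩ := famMaster n m a γ δ α β ha hα hγ h1 h2 h3 hF
    (Fintype.card ((Fin 3 × Fin n) ⊕ Fin m) + Fintype.card (Fin r)) z1
  have hR0 : ∀ t, 0 ≤ RF a γ δ α β t := fun t => by unfold RF; positivity
  obtain ⟨C1, hC1, hmain⟩ := shortP hR0 (hz1 z hzz) hu hM θ hθ
  rw [Fintype.card_fin] at hmain
  have hA0 : ∀ j, A' j ≠ 0 := by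
    rintro (j | j)
    · exact hα _ _
    · exact hγ _
  -- the zeros
  set T0 : ℕ := ∑ j, (B' j).natAbs with hT0
  have hzero : ∀ t : ℤ, (¬ ∀ j, ff A' B' t j ≠ 0) → t ∈ Icc (-(T0 : ℤ)) T0 := by
    intro t ht
    push Not at ht
    obtain ⟨j, hj⟩ := ht
    unfold ff at hj
    have g1 : (B' j).natAbs = (A' j).natAbs * t.natAbs := by
      have g2 : B' j = -(A' j * t) := by linarith
      rw [g2, Int.natAbs_neg, Int.natAbs_mul]
    have g3 : (B' j).natAbs ≤ ∑ j, (B' j).natAbs :=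
      single_le_sum (f := fun j => (B' j).natAbs) (fun _ _ => Nat.zero_le _) (mem_univ j)
    have g4 : t.natAbs ≤ (A' j).natAbs * t.natAbs :=
      Nat.le_mul_of_pos_left _ (Int.natAbs_pos.2 (hA0 j))
    have g5 : t.natAbs ≤ T0 := by
      rw [hT0]
      omega
    rw [mem_Icc]
    omega
  set D : ℝ := ∑ t ∈ Icc (-(T0 : ℤ)) T0, RF a γ δ α β t with hD
  have hD0 : 0 ≤ D := sum_nonneg fun t _ => hR0 t
  -- a lower bound for `H / (log H) ^ r`
  obtain ⟨κ, hκ0, hκ⟩ : ∃ κ : ℝ, 0 ≤ κ ∧ ∀ H : ℕ, 2 ≤ H →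
      1 ≤ κ * ((H : ℝ) / (Real.log H) ^ r) := by
    refine ⟨(r.factorial : ℝ), by positivity, fun H hH => ?_⟩
    have hHr : (2 : ℝ) ≤ H := by exact_mod_cast hH
    have hlH : 0 < Real.log H := Real.log_pos (by linarith)
    have e1 : (Real.log H) ^ r / (r.factorial : ℝ) ≤ Real.exp (Real.log H) :=
      Real.pow_div_factorial_le_exp _ hlH.le _
    rw [Real.exp_log (by linarith)] at e1
    rw [← mul_div_assoc, le_div_iff₀ (by positivity), one_mul]
    rw [div_le_iff₀ (by positivity)] at e1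
    linarith
  refine ⟨C1 + D * κ, by positivity, fun H A hH hsz => ?_⟩
  have e1 : ∑ t ∈ (Ioc A (A + H)).filter (fun t : ℤ => (∀ i, (u i * t + v i).natAbs.Prime) ∧
        ∀ j, ff A' B' t j ≠ 0), RF a γ δ α β t ≤ C1 * ((H : ℝ) / (Real.log H) ^ r) := by
    convert hmain A H hH hsz
  set P := (Ioc A (A + H)).filter (fun t : ℤ => ∀ i, (u i * t + v i).natAbs.Prime) with hP
  have e2 : ∑ t ∈ P, RF a γ δ α β t =
      ∑ t ∈ P.filter (fun t : ℤ => ∀ j, ff A' B' t j ≠ 0), RF a γ δ α β t +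
      ∑ t ∈ P.filter (fun t : ℤ => ¬ ∀ j, ff A' B' t j ≠ 0), RF a γ δ α β t :=
    (sum_filter_add_sum_filter_not _ _ _).symm
  have e3 : ∑ t ∈ P.filter (fun t : ℤ => ¬ ∀ j, ff A' B' t j ≠ 0),
      RF a γ δ α β t ≤ D := by
    refine sum_le_sum_of_subset_of_nonneg ?_ (fun t _ _ => hR0 t)
    intro t ht
    exact hzero t (mem_filter.1 ht).2
  have e4 : P.filter (fun t : ℤ => ∀ j, ff A' B' t j ≠ 0) =
      (Ioc A (A + H)).filter (fun t : ℤ => (∀ i, (u i * t + v i).natAbs.Prime) ∧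
        ∀ j, ff A' B' t j ≠ 0) := by
    rw [hP, filter_filter]
  rw [e2, e4]
  have e5 : D ≤ D * (κ * ((H : ℝ) / (Real.log H) ^ r)) := le_mul_of_one_le_right hD0 (hκ H hH)
  generalize (H : ℝ) / (Real.log H) ^ r = W at e1 e5 ⊢
  calc _ ≤ C1 * W + D := add_le_add e1 e3
    _ ≤ C1 * W + D * (κ * W) := by linarith
    _ = _ := by ring

/-- **twists by the values of a polynomial at the prime values in short intervals** -/
theorem twB (k : ℕ) (a b : ℚ) (ha : a ≠ 0) (hb : b ≠ 0) (hab : a ≠ b) (D : Polynomial ℚ)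
    (hD : D ≠ 0) (hs : D.Splits) (r : ℕ) (u v : Fin r → ℤ) (hu : ∀ i, u i ≠ 0)
    (h4 : ∀ i j, i ≠ j → u i * v j ≠ u j * v i)
    (h5 : ∀ i, D.eval (-(v i : ℚ) / u i) ≠ 0) (θ : ℝ) (hθ : 0 < θ) :
    ∃ C : ℝ, 0 ≤ C ∧ ∀ (H : ℕ) (A : ℤ), 2 ≤ H → (((|A| : ℤ) : ℝ) + H) ^ θ ≤ (H : ℝ) →
      ∑ t ∈ (Ioc A (A + H)).filter (fun t : ℤ => (∀ i, (u i * t + v i).natAbs.Prime) ∧
        D.eval (t : ℚ) ≠ 0),
        ((2 : ℝ) ^ rk (Tw a b (D.eval (t : ℚ)))) ^ k ≤ C * ((H : ℝ) / (Real.log H) ^ r) := by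
  classical
  obtain ⟨J, _, _, α, β, A0, B0, hA0, hB0, hAB0, hα, hR, hroot, hred⟩ := red a b ha hb hab D hD hs
  have hmix : ∀ (j : J) (i : Fin r), α j * v i - u i * β j ≠ 0 := by
    intro j i h
    apply h5 i
    have e1 : (α j : ℚ) ≠ 0 := by exact_mod_cast hα j
    have e2 : (u i : ℚ) ≠ 0 := by exact_mod_cast hu i
    have e3 : -(v i : ℚ) / u i = -(β j : ℚ) / α j := by
      rw [div_eq_div_iff e2 e1]
      have e4 : ((α j * v i - u i * β j : ℤ) : ℚ) = 0 := by exact_mod_cast h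
      push_cast at e4
      linarith
    rw [e3]
    exact hroot j
  obtain ⟨z1, hz1⟩ := bg_large (Sum.elim α u) (Sum.elim β v)
    (by
      rintro (j | j)
      · exact hα _
      · exact hu _)
    (by
      rintro (j | j) (l | l) hne
      · exact hR j l (by simpa using hne)
      · exact hmix j l
      · intro h
        apply hmix l j
        unfold Res at h
        simp only [Sum.elim_inl, Sum.elim_inr] at h
        linarith
      · exact sub_ne_zero.2 (h4 j l (by simpa using hne)))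
  obtain ⟨z, hzz, hBg, hz, hM⟩ := twMaster (k + 1) (by omega) A0 B0 hA0 hB0 hAB0 α β hα hR
    (Fintype.card J + Fintype.card (Fin r)) z1
  obtain ⟨C1, hC1, hmain⟩ := shortP (fun t => by positivity) (hz1 z hzz) hu hM θ hθ
  rw [Fintype.card_fin] at hmain
  refine ⟨C1, hC1, fun H A hH hsz => ?_⟩
  have e1 : ∑ t ∈ (Ioc A (A + H)).filter (fun t : ℤ => (∀ i, (u i * t + v i).natAbs.Prime) ∧
        ∀ j, ff α β t j ≠ 0), ((2 : ℝ) ^ Module.finrank ℤ
          (EAB (A0 * Pf α β t) (B0 * Pf α β t)).toAffine.Point) ^ (k + 1) ≤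
        C1 * ((H : ℝ) / (Real.log H) ^ r) := by
    convert hmain A H hH hsz
  refine le_trans ?_ e1
  calc ∑ t ∈ (Ioc A (A + H)).filter (fun t : ℤ => (∀ i, (u i * t + v i).natAbs.Prime) ∧
        D.eval (t : ℚ) ≠ 0), ((2 : ℝ) ^ rk (Tw a b (D.eval (t : ℚ)))) ^ k
      ≤ ∑ t ∈ (Ioc A (A + H)).filter (fun t : ℤ => (∀ i, (u i * t + v i).natAbs.Prime) ∧
        D.eval (t : ℚ) ≠ 0), ((2 : ℝ) ^ Module.finrank ℤ
          (EAB (A0 * Pf α β t) (B0 * Pf α β t)).toAffine.Point) ^ (k + 1) := by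
        refine sum_le_sum fun t ht => ?_
        rw [(hred t (mem_filter.1 ht).2.2).2]
        exact pow_le_pow_right₀ (one_le_pow₀ (by norm_num)) (by omega)
    _ ≤ _ := by
        refine sum_le_sum_of_subset_of_nonneg ?_ fun t _ _ => by positivity
        intro t ht
        rw [mem_filter] at ht ⊢
        exact ⟨ht.1, ht.2.1, (hred t ht.2.2).1⟩

end Pool.Agent.H27.RU
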