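import Mathlib
import Pool.Graph.R_seed8.W340.RT.SVR2
import Pool.Agent.H27.RU.SvP

/-!
# The sieve estimate for the integers of a progression in a short interval at which several forms
# are prime
-/

set_option autoImplicit false

namespace Pool.Agent.H27.RU

open Finset Pool.Agent.W262.RK Pool.Agent.W372.RK2

variable {J : Type} [Fintype J] [DecidableEq J]

/-- **the sieve estimate for prime values in progressions in short intervals** -/
theorem svtAP (J I : Type) [Fintype J] [DecidableEq J] [Fintype I] [DecidableEq I] (z : ℕ)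
    (hz : 2 * (Fintype.card J + Fintype.card I) + 2 ≤ z) :
    ∃ (C : ℝ) (K y0 : ℕ), 0 ≤ C ∧ 1 ≤ K ∧ ∀ (α β : J → ℤ) (γ δ : I → ℤ),
      Bg (Sum.elim α γ) (Sum.elim β δ) z → (∀ i, γ i ≠ 0) → ∀ (q X : ℕ) (t0 : ℤ), 1 ≤ q →
      (∀ p : ℕ, p.Prime → z < p → p ∣ q → ∀ j, ¬ (p : ℤ) ∣ ff α β t0 j) →
      ∀ T : Finset ℤ, (∀ t ∈ T, (∃ n ∈ Icc 1 X, t = t0 + q * (n : ℤ)) ∧
        ∀ i, (γ i * t + δ i).natAbs.Prime) →
      SVT α β z (Fintype.card J + Fintype.card I) T
        (X / (Real.log X) ^ (Fintype.card I) * gq z (Fintype.card J + Fintype.card I) q) X C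
        (4 ^ (Fintype.card I)) K y0 := by
  classical
  have hcard' : Fintype.card (J ⊕ I) = Fintype.card J + Fintype.card I := Fintype.card_sum
  obtain ⟨C, K, y0, hC, hK, hS⟩ := Pool.Agent.W340.RT.SVR2.svr2 (J ⊕ I) z (by rw [hcard']; exact hz)
  rw [hcard'] at hS
  set cJ := Fintype.card J with hcJ
  set cI := Fintype.card I with hcI
  refine ⟨C + 3 * cI, K + 2 * (1 + cJ + cI), y0 + 3, by positivity, by omega,
    fun α β γ δ hB hγ q X t0 hq hcop T hT => ?_⟩
  intro y k hy0 hzy hyK hk m r hm1 hm4 hmp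
  have hq0 : q ≠ 0 := by omega
  have hgq : 1 ≤ gq z (cJ + cI) q := gq_ge_one hz
  have hy3 : 3 ≤ y := by omega
  have hm0 : m ≠ 0 := by omega
  have hyX : y ≤ X := le_trans (Nat.le_self_pow (by omega) y) hyK
  have hX3 : 3 ≤ X := by omega
  have hXr : (3 : ℝ) ≤ X := by exact_mod_cast hX3
  have hyr : (3 : ℝ) ≤ y := by exact_mod_cast hy3
  have hl1 : 1 < Real.log y := by
    rw [Real.lt_log_iff_exp_lt (by linarith)]
    have := Real.exp_one_lt_d9
    linarith
  have hlX1 : 1 < Real.log X := by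
    rw [Real.lt_log_iff_exp_lt (by linarith)]
    have := Real.exp_one_lt_d9
    linarith
  have hly : Real.log y ≤ y := by
    have := Real.log_le_sub_one_of_pos (by linarith : (0 : ℝ) < y)
    linarith
  -- `log X ≤ 2 k log y`
  have hlX : Real.log X ≤ 2 * k * Real.log y := by
    have h1 : (X : ℝ) ≤ ((y : ℝ) + 1) ^ k := by exact_mod_cast hk.le
    have h2 : (y : ℝ) + 1 ≤ (y : ℝ) ^ 2 := by nlinarith
    have h3 : (X : ℝ) ≤ ((y : ℝ) ^ 2) ^ k := h1.trans (pow_le_pow_left₀ (by linarith) h2 k)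
    have h4 := Real.log_le_log (by linarith) h3
    rw [← pow_mul, Real.log_pow] at h4
    push_cast at h4
    exact h4
  have h2k : (2 * (k : ℝ)) ^ cI ≤ ((4 : ℝ) ^ cI) ^ k := by
    have h1 : (2 * (k : ℝ)) ≤ 4 ^ k := by exact_mod_cast two_mul_le_four_pow k
    calc (2 * (k : ℝ)) ^ cI ≤ (4 ^ k) ^ cI := pow_le_pow_left₀ (by positivity) h1 _
      _ = ((4 : ℝ) ^ cI) ^ k := pow_right_comm _ _ _
  have hlXI : (Real.log X) ^ cI ≤ ((4 : ℝ) ^ cI) ^ k * (Real.log y) ^ cI := by
    calc (Real.log X) ^ cI ≤ (2 * k * Real.log y) ^ cI :=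
          pow_le_pow_left₀ (by linarith) hlX _
      _ = (2 * (k : ℝ)) ^ cI * (Real.log y) ^ cI := by rw [mul_pow]
      _ ≤ _ := mul_le_mul_of_nonneg_right h2k (by positivity)
  -- the modulus and `q` are coprime
  have hmq : m.Coprime q := by
    apply Nat.coprime_of_dvd
    intro p hp hpm hpq
    obtain ⟨hzp, t, ht, j, hj⟩ := hmp p hp hpm
    apply hcop p hp hzp hpq j
    obtain ⟨n, _, rfl⟩ := (hT t ht).1
    have h1 : ff α β t0 j = ff α β (t0 + q * (n : ℤ)) j - α j * (q * n) := by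
      unfold ff
      ring
    rw [h1]
    refine dvd_sub hj ?_
    exact ((Int.natCast_dvd_natCast.2 hpq).mul_right _).mul_left _
  set P : ℝ := ∏ p ∈ m.primeFactors.filter (fun p => p ∈ PS z y),
        (p : ℝ) / ((p : ℝ) - ((cJ + cI : ℕ) : ℝ)) with hP
  have hP1 : 1 ≤ P := by
    rw [hP]
    calc (1 : ℝ) = ∏ p ∈ m.primeFactors.filter (fun p => p ∈ PS z y), (1 : ℝ) := by
          rw [prod_const_one]
      _ ≤ _ := prod_le_prod (fun _ _ => zero_le_one)
          fun p hp => fac_ge_one (z := z) (by omega) (mem_PS.1 (mem_filter.1 hp).2).1.1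
  set T1 := T.filter (fun t : ℤ => (m : ℤ) ∣ t - r ∧ ∀ p ∈ PS z y, ¬ p ∣ m →
      ∀ j, ¬ (p : ℤ) ∣ ff α β t j) with hT1
  -- the small values
  set T2 := univ.biUnion (fun i : I => T1.filter (fun t : ℤ => (γ i * t + δ i).natAbs ≤ y))
    with hT2
  have hT2c : T2.card ≤ cI * (2 * y + 1) := by
    refine card_biUnion_le.trans ((sum_le_sum fun i _ => card_small _ _ (hγ i) _ _).trans ?_)
    rw [sum_const, card_univ, smul_eq_mul]
  -- the large values
  have hprod : ∏ p ∈ (m * q).primeFactors.filter (fun p => p ∈ PS z y),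
        (p : ℝ) / ((p : ℝ) - ((cJ + cI : ℕ) : ℝ)) ≤ P * gq z (cJ + cI) q := by
    have h1 : (m * q).primeFactors.filter (fun p => p ∈ PS z y) =
        (m.primeFactors.filter (fun p => p ∈ PS z y)) ∪
          (q.primeFactors.filter (fun p => p ∈ PS z y)) := by
      rw [Nat.primeFactors_mul hm0 hq0, filter_union]
    rw [h1, prod_union]
    · refine mul_le_mul_of_nonneg_left ?_ (by linarith)
      unfold gq
      refine prod_mono_set _ ?_ ?_
      · intro p hp
        rw [mem_filter] at hp ⊢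
        exact ⟨hp.1, (mem_PS.1 hp.2).1.1⟩
      · intro p hp
        exact fac_ge_one hz (mem_filter.1 hp).2
    · rw [disjoint_left]
      intro p hp hp'
      have h2 := Nat.prime_of_mem_primeFactors (mem_filter.1 hp).1
      have h3 := Nat.dvd_gcd (Nat.dvd_of_mem_primeFactors (mem_filter.1 hp).1)
        (Nat.dvd_of_mem_primeFactors (mem_filter.1 hp').1)
      rw [hmq.gcd_eq_one] at h3
      exact h2.one_lt.ne' (Nat.dvd_one.1 h3)
  have hT3c : ((T1 \ T2).card : ℝ) ≤
      C * (X / m) * (P * gq z (cJ + cI) q) / (Real.log y) ^ (cJ + cI) := by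
    have hbd0 : 0 ≤ C * (X / m) * (P * gq z (cJ + cI) q) / (Real.log y) ^ (cJ + cI) := by
      positivity
    rcases (T1 \ T2).eq_empty_or_nonempty with he | ⟨ts, hts⟩
    · rw [he, card_empty, Nat.cast_zero]
      exact hbd0
    have hts1 := mem_filter.1 (mem_sdiff.1 hts).1
    obtain ⟨ns, hns, hns2⟩ := (hT ts hts1.1).1
    set α' : J ⊕ I → ℤ := fun j => Sum.elim α γ j * q with hα'
    set β' : J ⊕ I → ℤ := fun j => Sum.elim α γ j * t0 + Sum.elim β δ j with hβ'
    have hff : ∀ (n : ℕ) (j : J ⊕ I), ff α' β' n j =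
        ff (Sum.elim α γ) (Sum.elim β δ) (t0 + q * (n : ℤ)) j := by
      intro n j
      unfold ff
      simp only [hα', hβ']
      ring
    have hyK' : y ^ K ≤ X := le_trans (Nat.pow_le_pow_right (by omega) (by omega)) hyK
    have hbd := hS X y (by omega) hzy hyK' α' β' m (m * q) ns hm1 (Dvd.intro _ rfl)
      (mul_ne_zero hm0 hq0) hm4 (by
        intro p hp hpM
        have hpp := (mem_PS.1 hp).2
        have hpi : Prime (p : ℤ) := Nat.prime_iff_prime_int.1 hpp
        have hpq : ¬ (p : ℤ) ∣ q := by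
          intro h
          exact hpM ((Int.natCast_dvd_natCast.1 h).mul_left _)
        have h1 := hB.2 p hpp (mem_PS.1 hp).1.1
        refine ⟨fun j h => ?_, fun j l hjl h => ?_⟩
        · rcases hpi.dvd_or_dvd h with h2 | h2
          · exact h1.1 j h2
          · exact hpq h2
        · have h2 : Res α' β' j l = q * Res (Sum.elim α γ) (Sum.elim β δ) j l := by
            unfold Res
            simp only [hα', hβ']
            ring
          rw [h2] at h
          rcases hpi.dvd_or_dvd h with h3 | h3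
          · exact hpq h3
          · exact h1.2 j l hjl h3)
    have hcard : (T1 \ T2).card ≤ ((Icc 1 X).filter (fun n : ℕ => n ≡ ns [MOD m] ∧
        ∀ p ∈ PS z y, ¬ p ∣ m * q → ∀ j, ¬ (p : ℤ) ∣ ff α' β' n j)).card := by
      have himg : T1 \ T2 ⊆ ((Icc 1 X).filter (fun n : ℕ => n ≡ ns [MOD m] ∧ ∀ p ∈ PS z y,
        ¬ p ∣ m * q → ∀ j, ¬ (p : ℤ) ∣ ff α' β' n j)).image
          (fun n : ℕ => t0 + q * (n : ℤ)) := by
        intro t ht
        have ht0 := mem_sdiff.1 ht
        have ht1 := mem_filter.1 ht0.1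
        obtain ⟨n, hn, hn2⟩ := (hT t ht1.1).1
        rw [mem_image]
        refine ⟨n, mem_filter.2 ⟨hn, ?_, ?_⟩, hn2.symm⟩
        · have h1 : (m : ℤ) ∣ q * ((ns : ℤ) - n) := by
            have h2 : (q : ℤ) * ((ns : ℤ) - n) = (ts - r) - (t - r) := by
              rw [hns2, hn2]
              ring
            rw [h2]
            exact dvd_sub hts1.2.1 ht1.2.1
          have h3 : IsCoprime (m : ℤ) (q : ℤ) := Nat.isCoprime_iff_coprime.2 hmq
          exact Nat.modEq_iff_dvd.2 (h3.dvd_of_dvd_mul_left h1)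
        · intro p hp hpM j
          rw [hff, ← hn2]
          rcases j with j | i
          · exact ht1.2.2 p hp (fun h => hpM (h.mul_right _)) j
          · intro hd
            have hd' : (p : ℤ) ∣ γ i * t + δ i := hd
            have hpr := (hT t ht1.1).2 i
            have h3 : p ∣ (γ i * t + δ i).natAbs := Int.natCast_dvd.1 hd'
            have h4 : p = (γ i * t + δ i).natAbs :=
              (Nat.prime_dvd_prime_iff_eq (mem_PS.1 hp).2 hpr).1 h3
            apply ht0.2
            rw [hT2, mem_biUnion]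
            exact ⟨i, mem_univ _, mem_filter.2 ⟨ht0.1, h4 ▸ (mem_PS.1 hp).1.2⟩⟩
      exact (card_le_card himg).trans card_image_le
    have hcT : ((T1 \ T2).card : ℝ) ≤ (((Icc 1 X).filter (fun n : ℕ => n ≡ ns [MOD m] ∧
        ∀ p ∈ PS z y, ¬ p ∣ m * q → ∀ j, ¬ (p : ℤ) ∣ ff α' β' n j)).card : ℝ) := by
      exact_mod_cast hcard
    refine hcT.trans (hbd.trans ?_)
    refine div_le_div_of_nonneg_right ?_ (by positivity)
    exact mul_le_mul_of_nonneg_left hprod (by positivity)
  -- the two parts together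
  set G : ℝ := gq z (cJ + cI) q with hG
  have hT1c : (T1.card : ℝ) ≤ C * (X / m) * (P * G) / (Real.log y) ^ (cJ + cI) +
      cI * (2 * y + 1) := by
    have h1 : T1.card ≤ (T1 \ T2).card + T2.card := by
      calc T1.card ≤ ((T1 \ T2) ∪ T2).card := card_le_card (by
            intro t ht
            rw [mem_union, mem_sdiff]
            by_cases h : t ∈ T2
            · exact Or.inr h
            · exact Or.inl ⟨ht, h⟩)
        _ ≤ _ := card_union_le _ _
    have h2 : (T1.card : ℝ) ≤ ((T1 \ T2).card : ℝ) + (T2.card : ℝ) := by exact_mod_cast h1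
    have h3 : (T2.card : ℝ) ≤ cI * (2 * y + 1) := by exact_mod_cast hT2c
    linarith
  have hmX : m * y ^ (1 + cJ + cI) ≤ X := by
    have h1 : (m * y ^ (1 + cJ + cI)) ^ 4 ≤ X ^ 4 := by
      calc (m * y ^ (1 + cJ + cI)) ^ 4 = m ^ 4 * (y ^ (2 * (1 + cJ + cI))) ^ 2 := by ring
        _ ≤ X * X ^ 2 := Nat.mul_le_mul hm4 (Nat.pow_le_pow_left
            (le_trans (Nat.pow_le_pow_right (by omega) (by omega)) hyK) 2)
        _ ≤ X ^ 4 := by
            have : X ^ 4 = X * X ^ 2 * X := by ring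
            rw [this]
            exact Nat.le_mul_of_pos_right _ (by omega)
    exact (Nat.pow_le_pow_iff_left (by norm_num)).1 h1
  have hmr : (0 : ℝ) < m := by exact_mod_cast (by omega : 0 < m)
  have hLX : 0 < (Real.log X) ^ cI := by positivity
  have hLy : 0 < (Real.log y) ^ cI := by positivity
  have hLJ : 0 < (Real.log y) ^ cJ := by positivity
  -- first part
  have e1 : C * (X / m) * P / (Real.log y) ^ (cJ + cI) ≤
      C * ((4 : ℝ) ^ cI) ^ k * (X / (Real.log X) ^ cI / m) * P / (Real.log y) ^ cJ := by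
    rw [pow_add]
    have h1 : 1 / (Real.log y) ^ cI ≤ ((4 : ℝ) ^ cI) ^ k / (Real.log X) ^ cI := by
      rw [div_le_div_iff₀ hLy hLX, one_mul]
      exact hlXI
    calc C * (X / m) * P / ((Real.log y) ^ cJ * (Real.log y) ^ cI)
        = (C * (X / m) * P / (Real.log y) ^ cJ) * (1 / (Real.log y) ^ cI) := by
          field_simp
      _ ≤ (C * (X / m) * P / (Real.log y) ^ cJ) * (((4 : ℝ) ^ cI) ^ k / (Real.log X) ^ cI) :=
          mul_le_mul_of_nonneg_left h1 (by positivity)
      _ = _ := by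
          field_simp
  -- second part
  have e2 : (cI : ℝ) * (2 * y + 1) ≤
      3 * cI * ((4 : ℝ) ^ cI) ^ k * (X / (Real.log X) ^ cI / m) * P / (Real.log y) ^ cJ := by
    have h1 : (m : ℝ) * (y : ℝ) ^ (1 + cJ + cI) ≤ X := by exact_mod_cast hmX
    have h2 : (Real.log y) ^ cJ ≤ (y : ℝ) ^ cJ := pow_le_pow_left₀ (by linarith) hly _
    have h3 : (Real.log y) ^ cI ≤ (y : ℝ) ^ cI := pow_le_pow_left₀ (by linarith) hly _
    have h4 : (y : ℝ) * (Real.log y) ^ cJ * (Real.log X) ^ cI * m ≤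
        ((4 : ℝ) ^ cI) ^ k * X := by
      calc (y : ℝ) * (Real.log y) ^ cJ * (Real.log X) ^ cI * m
          ≤ (y : ℝ) * (y : ℝ) ^ cJ * (((4 : ℝ) ^ cI) ^ k * (y : ℝ) ^ cI) * m := by
            refine mul_le_mul_of_nonneg_right (mul_le_mul (mul_le_mul_of_nonneg_left h2
              (by positivity)) (hlXI.trans (mul_le_mul_of_nonneg_left h3 (by positivity)))
              (by positivity) (by positivity)) (by positivity)
        _ = ((4 : ℝ) ^ cI) ^ k * (m * (y : ℝ) ^ (1 + cJ + cI)) := by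
            rw [pow_add, pow_add, pow_one]
            ring
        _ ≤ _ := mul_le_mul_of_nonneg_left h1 (by positivity)
    have h5 : (y : ℝ) ≤ ((4 : ℝ) ^ cI) ^ k * (X / (Real.log X) ^ cI / m) * 1 /
        (Real.log y) ^ cJ := by
      rw [le_div_iff₀ hLJ, mul_one]
      rw [show ((4 : ℝ) ^ cI) ^ k * (X / (Real.log X) ^ cI / m) =
        (((4 : ℝ) ^ cI) ^ k * X) / ((Real.log X) ^ cI * m) by field_simp]
      rw [le_div_iff₀ (by positivity)]
      calc (y : ℝ) * (Real.log y) ^ cJ * ((Real.log X) ^ cI * m)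
          = (y : ℝ) * (Real.log y) ^ cJ * (Real.log X) ^ cI * m := by ring
        _ ≤ _ := h4
    have h6 : (y : ℝ) ≤ ((4 : ℝ) ^ cI) ^ k * (X / (Real.log X) ^ cI / m) * P /
        (Real.log y) ^ cJ := by
      refine h5.trans (div_le_div_of_nonneg_right ?_ hLJ.le)
      exact mul_le_mul_of_nonneg_left hP1 (by positivity)
    calc (cI : ℝ) * (2 * y + 1) ≤ cI * (3 * y) := by
          refine mul_le_mul_of_nonneg_left ?_ (by positivity)
          linarith
      _ = 3 * cI * y := by ring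
      _ ≤ 3 * cI * (((4 : ℝ) ^ cI) ^ k * (X / (Real.log X) ^ cI / m) * P /
        (Real.log y) ^ cJ) := mul_le_mul_of_nonneg_left h6 (by positivity)
      _ = _ := by ring
  have e3 : 0 ≤ (cI : ℝ) * (2 * y + 1) := by positivity
  calc (T1.card : ℝ) ≤ C * (X / m) * (P * G) / (Real.log y) ^ (cJ + cI) +
        cI * (2 * y + 1) := hT1c
    _ ≤ (C * (X / m) * P / (Real.log y) ^ (cJ + cI)) * G + (cI * (2 * y + 1)) * G := by
        refine add_le_add (le_of_eq ?_) (le_mul_of_one_le_right e3 hgq)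
        ring
    _ ≤ (C * ((4 : ℝ) ^ cI) ^ k * (X / (Real.log X) ^ cI / m) * P / (Real.log y) ^ cJ) * G +
        (3 * cI * ((4 : ℝ) ^ cI) ^ k * (X / (Real.log X) ^ cI / m) * P / (Real.log y) ^ cJ) * G :=
        add_le_add (mul_le_mul_of_nonneg_right e1 (by linarith))
          (mul_le_mul_of_nonneg_right e2 (by linarith))
    _ = _ := by ring

end Pool.Agent.H27.RU
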