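import Mathlib
import Pool.Agent.H27.RU.SvAP
import Pool.Agent.H27.RU.Short

/-!
# From the master theorem to primes in progressions in short intervals
-/

set_option autoImplicit false

namespace Pool.Agent.H27.RU

open Finset Pool.Agent.W262.RK Pool.Agent.W372.RK2

variable {J : Type} [Fintype J] [DecidableEq J]

set_option maxHeartbeats 1000000 in
/-- **prime values in progressions in short intervals** -/
theorem shortAP {I : Type} [Fintype I] [DecidableEq I] {α β : J → ℤ} {γ δ : I → ℤ} {z : ℕ}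
    {R : ℤ → ℝ} (hR : ∀ t, 0 ≤ R t) (hB : Bg (Sum.elim α γ) (Sum.elim β δ) z)
    (hγ : ∀ i, γ i ≠ 0)
    (hM : Master α β z (Fintype.card J + Fintype.card I) R) (θ : ℝ) (hθ : 0 < θ) :
    ∃ C : ℝ, 0 ≤ C ∧ ∀ (q : ℕ) (r A : ℤ) (H : ℕ), 1 ≤ q → 2 ≤ H →
      (∀ p : ℕ, p.Prime → z < p → p ∣ q → ∀ j, ¬ (p : ℤ) ∣ ff α β r j) →
      (((|A| : ℤ) : ℝ) + H) ^ θ ≤ (H : ℝ) / q →
      ∑ t ∈ (Ioc A (A + H)).filter (fun t : ℤ => t ≡ r [ZMOD q] ∧
        (∀ i, (γ i * t + δ i).natAbs.Prime) ∧ ∀ j, ff α β t j ≠ 0), R t ≤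
        C * ((H : ℝ) / q) * gq z (Fintype.card J + Fintype.card I) q /
          (Real.log H) ^ (Fintype.card I) := by
  classical
  obtain ⟨b, hb1, hb⟩ := pow_bound θ hθ
  have hz : 2 * (Fintype.card J + Fintype.card I) + 2 ≤ z := by
    have := hB.1
    rwa [Fintype.card_sum] at this
  obtain ⟨C, K, y0, hC, hK, hsv⟩ := svtAP J I z hz
  set cI := Fintype.card I with hcI
  set cJ := Fintype.card J with hcJ
  obtain ⟨C2, X0, hC2, hX0, hmain⟩ := hM (b + 1) (by omega) C (4 ^ cI) K y0 hC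
    (one_le_pow₀ (by norm_num)) hK
  set X1 : ℕ := X0 + (∑ j, ((α j).natAbs + (β j).natAbs)) + 3 with hX1
  set M : ℕ := X1 ^ b with hMdef
  set R0 : ℝ := ∑ t ∈ Icc (-(M : ℤ)) M, R t with hR0
  have hR00 : 0 ≤ R0 := sum_nonneg fun t _ => hR t
  have hlM : 0 ≤ Real.log M := Real.log_natCast_nonneg M
  refine ⟨R0 * (Real.log M) ^ cI + 2 * C2 * (b : ℝ) ^ cI, by positivity,
    fun q r A H hq hH hcop hsz => ?_⟩
  set T := (Ioc A (A + H)).filter (fun t : ℤ => t ≡ r [ZMOD q] ∧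
    (∀ i, (γ i * t + δ i).natAbs.Prime) ∧ ∀ j, ff α β t j ≠ 0) with hT
  have hqr : (1 : ℝ) ≤ q := by exact_mod_cast hq
  have hgq : 1 ≤ gq z (cJ + cI) q := gq_ge_one hz
  have hHr : (2 : ℝ) ≤ H := by exact_mod_cast hH
  have hlH : 0 < Real.log H := Real.log_pos (by linarith)
  have hAr : (0 : ℝ) ≤ ((|A| : ℤ) : ℝ) := by exact_mod_cast abs_nonneg A
  have hu1 : (1 : ℝ) ≤ ((|A| : ℤ) : ℝ) + H := by linarith
  have hv1 : (1 : ℝ) ≤ (H : ℝ) / q := (Real.one_le_rpow hu1 hθ.le).trans hsz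
  have hub := hb _ _ hu1 hv1 hsz
  -- the first element of the progression
  set t0 : ℤ := A - (A - r) % q with ht0
  have hqz : (q : ℤ) ≠ 0 := by omega
  have hmod0 := Int.emod_nonneg (A - r) hqz
  have hmod1 := Int.emod_lt_of_pos (A - r) (by omega : (0 : ℤ) < q)
  have ht0r : (q : ℤ) ∣ t0 - r := by
    have h1 : t0 - r = (A - r) - (A - r) % q := by rw [ht0]; ring
    rw [h1]
    exact Int.dvd_self_sub_emod
  set X : ℕ := (H + (q - 1)) / q with hXdef
  have hXq : X * q ≤ H + (q - 1) := Nat.div_mul_le_self _ _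
  have hHX : H ≤ X * q := by
    have h1 : H + (q - 1) < (X + 1) * q := by
      have h2 := Nat.lt_mul_div_succ (H + (q - 1)) (show 0 < q by omega)
      rw [mul_comm]
      exact h2
    rw [add_mul, one_mul] at h1
    omega
  have hvX : (H : ℝ) / q ≤ X := by
    rw [div_le_iff₀ (by linarith)]
    exact_mod_cast hHX
  have hHq : q ≤ H := by
    rw [one_le_div (by linarith)] at hv1
    exact_mod_cast hv1
  have hX2 : (X : ℝ) ≤ 2 * ((H : ℝ) / q) := by
    have h1 : X * q ≤ 2 * H := by omega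
    have h2 : (X : ℝ) * q ≤ 2 * H := by exact_mod_cast h1
    rw [← mul_div_assoc, le_div_iff₀ (by linarith)]
    exact h2
  have hX1' : 1 ≤ X := by
    have h1 : (1 : ℝ) ≤ X := hv1.trans hvX
    exact_mod_cast h1
  have hXb : ((|A| : ℤ) : ℝ) + H ≤ (X : ℝ) ^ b :=
    hub.trans (pow_le_pow_left₀ (by positivity) hvX b)
  have habs : ∀ t ∈ T, t.natAbs ≤ X ^ b := by
    intro t ht
    have h1 := mem_Ioc.1 (mem_filter.1 ht).1
    have h2 : (t.natAbs : ℤ) ≤ |A| + H := by
      have h3 := le_abs_self A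
      have h4 := neg_abs_le A
      omega
    have h3 : (t.natAbs : ℝ) ≤ ((|A| : ℤ) : ℝ) + H := by
      have h4 : (((t.natAbs : ℤ)) : ℝ) ≤ (((|A| + (H : ℤ)) : ℤ) : ℝ) := Int.cast_le.2 h2
      rw [Int.cast_natCast, Int.cast_add, Int.cast_natCast] at h4
      exact h4
    have h5 : (t.natAbs : ℝ) ≤ (X : ℝ) ^ b := h3.trans hXb
    rw [← Nat.cast_pow] at h5
    exact Nat.cast_le.1 h5
  have hHXb : (H : ℝ) ≤ (X : ℝ) ^ b := le_trans (by linarith) hXb
  have hlHb : Real.log H ≤ b * Real.log X := by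
    have h1 := Real.log_le_log (by linarith) hHXb
    rwa [Real.log_pow] at h1
  have hLH : 0 < (Real.log H) ^ cI := by positivity
  rcases Nat.lt_or_ge X X1 with hXX | hXX
  · have h1 : ∑ t ∈ T, R t ≤ R0 := by
      refine sum_le_sum_of_subset_of_nonneg ?_ (fun t _ _ => hR t)
      intro t ht
      have h2 := (habs t ht).trans (Nat.pow_le_pow_left hXX.le b)
      rw [mem_Icc]
      omega
    have h2 : (1 : ℝ) ≤ (H : ℝ) / q * gq z (cJ + cI) q :=
      one_le_mul_of_one_le_of_one_le hv1 hgq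
    have h3 : (Real.log H) ^ cI ≤ (Real.log M) ^ cI := by
      refine pow_le_pow_left₀ hlH.le ?_ _
      refine Real.log_le_log (by linarith) (hHXb.trans ?_)
      rw [hMdef]
      push_cast
      exact pow_le_pow_left₀ (by positivity) (by exact_mod_cast hXX.le) _
    have h4 : R0 * (Real.log H) ^ cI ≤ R0 * (Real.log M) ^ cI :=
      mul_le_mul_of_nonneg_left h3 hR00
    have h5 : 0 ≤ R0 * (Real.log M) ^ cI := by positivity
    rw [le_div_iff₀ hLH]
    calc (∑ t ∈ T, R t) * (Real.log H) ^ cI ≤ R0 * (Real.log H) ^ cI :=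
          mul_le_mul_of_nonneg_right h1 hLH.le
      _ ≤ (R0 * (Real.log M) ^ cI) * ((H : ℝ) / q * gq z (cJ + cI) q) :=
          h4.trans (le_mul_of_one_le_right h5 h2)
      _ ≤ (R0 * (Real.log M) ^ cI + 2 * C2 * (b : ℝ) ^ cI) *
            ((H : ℝ) / q * gq z (cJ + cI) q) := by
          refine mul_le_mul_of_nonneg_right ?_ (by linarith)
          have : 0 ≤ 2 * C2 * (b : ℝ) ^ cI := by positivity
          linarith
      _ = _ := by ring
  · have hX3 : 3 ≤ X := by omega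
    have hXr3 : (3 : ℝ) ≤ X := by exact_mod_cast hX3
    have hlX : 0 < Real.log X := Real.log_pos (by linarith)
    have hLX : 0 < (Real.log X) ^ cI := by positivity
    have hin : ∀ t ∈ T, (∃ n ∈ Icc 1 X, t = t0 + q * (n : ℤ)) ∧
        ∀ i, (γ i * t + δ i).natAbs.Prime := by
      intro t ht
      have ht1 := mem_filter.1 ht
      refine ⟨?_, ht1.2.2.1⟩
      have h1 := mem_Ioc.1 ht1.1
      have h2 : (q : ℤ) ∣ t - t0 := by
        have h3 : (q : ℤ) ∣ t - r := ht1.2.1.symm.dvd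
        have h4 : t - t0 = (t - r) - (t0 - r) := by ring
        rw [h4]
        exact dvd_sub h3 ht0r
      obtain ⟨n, hn⟩ := h2
      have hn0 : 0 < n := by
        by_contra hcon
        have h5 : q * n ≤ 0 := mul_nonpos_of_nonneg_of_nonpos (by omega) (by omega)
        omega
      have hnX : n * q ≤ H + (q - 1) := by
        have h6 : (q : ℤ) * n = t - t0 := hn.symm
        have h7 : (q : ℤ) * n = n * q := mul_comm _ _
        omega
      refine ⟨n.toNat, ?_, ?_⟩
      · rw [mem_Icc]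
        refine ⟨by omega, ?_⟩
        rw [hXdef, Nat.le_div_iff_mul_le (by omega)]
        zify
        rw [Int.toNat_of_nonneg hn0.le]
        push_cast [Nat.cast_sub hq]
        exact hnX
      · rw [Int.toNat_of_nonneg hn0.le, ← hn]
        ring
    have hcop' : ∀ p : ℕ, p.Prime → z < p → p ∣ q → ∀ j, ¬ (p : ℤ) ∣ ff α β t0 j := by
      intro p hp hzp hpq j hd
      apply hcop p hp hzp hpq j
      have h1 : ff α β r j = ff α β t0 j - α j * (t0 - r) := by
        unfold ff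
        ring
      rw [h1]
      exact dvd_sub hd (((Int.natCast_dvd_natCast.2 hpq).trans ht0r).mul_left _)
    have hs := hsv α β γ δ hB hγ q X t0 hq hcop' T hin
    have h1 := hmain T _ X (by omega) (by positivity) (fun t ht j =>
      ⟨(mem_filter.1 ht).2.2.2 j, size_ff (by omega) hX1' (habs t ht) j⟩) hs
    have h2 : (Real.log H) ^ cI ≤ (b : ℝ) ^ cI * (Real.log X) ^ cI := by
      rw [← mul_pow]
      exact pow_le_pow_left₀ hlH.le hlHb _
    have h3 : (X : ℝ) / (Real.log X) ^ cI ≤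
        2 * ((H : ℝ) / q) * (b : ℝ) ^ cI / (Real.log H) ^ cI := by
      rw [div_le_div_iff₀ hLX hLH]
      calc (X : ℝ) * (Real.log H) ^ cI ≤ (2 * ((H : ℝ) / q)) * ((b : ℝ) ^ cI * (Real.log X) ^ cI) :=
            mul_le_mul hX2 h2 hLH.le (by positivity)
        _ = _ := by ring
    have h4 : 0 ≤ R0 * (Real.log M) ^ cI * (((H : ℝ) / q) * gq z (cJ + cI) q) /
        (Real.log H) ^ cI := by positivity
    calc ∑ t ∈ T, R t ≤ C2 * (X / (Real.log X) ^ cI * gq z (cJ + cI) q) := h1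
      _ ≤ C2 * (2 * ((H : ℝ) / q) * (b : ℝ) ^ cI / (Real.log H) ^ cI * gq z (cJ + cI) q) := by
          gcongr
      _ ≤ C2 * (2 * ((H : ℝ) / q) * (b : ℝ) ^ cI / (Real.log H) ^ cI * gq z (cJ + cI) q) +
          R0 * (Real.log M) ^ cI * (((H : ℝ) / q) * gq z (cJ + cI) q) /
            (Real.log H) ^ cI := le_add_of_nonneg_right h4
      _ = _ := by ring

end Pool.Agent.H27.RU
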