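import Mathlib
import Pool.Agent.H27.RU.FinB
import Pool.Agent.H27.RU.ShortAP

/-!
# Prime tuples in progressions in short intervals: twists
-/

set_option autoImplicit false

namespace Pool.Agent.H27.RU

open Finset Pool.Agent.W262.RK

/-- **twists by the values of a polynomial at the prime values in progressions in short
intervals** -/
theorem twAP (k : ℕ) (a b : ℚ) (ha : a ≠ 0) (hb : b ≠ 0) (hab : a ≠ b) (D : Polynomial ℚ)
    (hD : D ≠ 0) (hs : D.Splits) (n : ℕ) (u v : Fin n → ℤ) (hu : ∀ i, u i ≠ 0)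
    (h4 : ∀ i j, i ≠ j → u i * v j ≠ u j * v i)
    (h5 : ∀ i, D.eval (-(v i : ℚ) / u i) ≠ 0) (θ : ℝ) (hθ : 0 < θ) :
    ∃ C : ℝ, 0 ≤ C ∧ ∀ (q H : ℕ) (r A : ℤ), 1 ≤ q → 2 ≤ H →
      (∀ ρ : ℚ, D.eval ρ = 0 → IsCoprime ((ρ.den : ℤ) * r - ρ.num) (q : ℤ)) →
      (((|A| : ℤ) : ℝ) + H) ^ θ ≤ (H : ℝ) / q →
      ∑ t ∈ (Ioc A (A + H)).filter (fun t : ℤ => t ≡ r [ZMOD q] ∧
        (∀ i, (u i * t + v i).natAbs.Prime) ∧ D.eval (t : ℚ) ≠ 0),
        ((2 : ℝ) ^ rk (Tw a b (D.eval (t : ℚ)))) ^ k ≤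
          C * ((H : ℝ) / q) * ((q : ℝ) / (q.totient : ℝ)) ^ (D.natDegree + n) /
            (Real.log H) ^ n := by
  classical
  obtain ⟨J, _, _, α, β, A0, B0, hA0, hB0, hAB0, hα, hR, hroot, hred⟩ := red a b ha hb hab D hD hs
  have hmix : ∀ (j : J) (i : Fin n), α j * v i - u i * β j ≠ 0 := by
    intro j i h
    apply h5 i
    have e1 : (α j : ℚ) ≠ 0 := by exact_mod_cast hα j
    have e2 : (u i : ℚ) ≠ 0 := by exact_mod_cast hu i
    have e3 : -(v i : ℚ) / u i = -(β j : ℚ) / α j := by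
      rw [div_eq_div_iff e2 e1]
      have e4 : ((α j * v i - u i * β j : ℤ) : ℚ) = 0 := by exact_mod_cast h
      push_cast at e4
      linarith
    rw [e3]
    exact hroot j
  obtain ⟨z1, hz1⟩ := bg_large (Sum.elim α u) (Sum.elim β v)
    (by
      rintro (j | j)
      · exact hα _
      · exact hu _)
    (by
      rintro (j | j) (l | l) hne
      · exact hR j l (by simpa using hne)
      · exact hmix j l
      · intro h
        apply hmix l j
        unfold Res at h
        simp only [Sum.elim_inl, Sum.elim_inr] at h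
        linarith
      · exact sub_ne_zero.2 (h4 j l (by simpa using hne)))
  obtain ⟨z, hzz, hBg, hz, hM⟩ := twMaster (k + 1) (by omega) A0 B0 hA0 hB0 hAB0 α β hα hR
    (Fintype.card J + Fintype.card (Fin n)) z1
  obtain ⟨C1, hC1, hmain⟩ := shortAP (fun t => by positivity) (hz1 z hzz) hu hM θ hθ
  obtain ⟨C2, hC2, hg⟩ := gq_le (Fintype.card J + Fintype.card (Fin n))
  refine ⟨C1 * C2, by positivity, fun q H r A hq hH hcop hsz => ?_⟩
  have e0 := hmain q r A H hq hH (by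
    intro p hp hzp hpq j hd
    have hpi : Prime (p : ℤ) := Nat.prime_iff_prime_int.1 hp
    set ρ : ℚ := -(β j : ℚ) / α j with hρ
    have hαj : (α j : ℚ) ≠ 0 := by exact_mod_cast hα j
    have e1 : (α j : ℚ) * ρ.num = -(β j : ℚ) * ρ.den := by
      have e2 : (ρ.num : ℚ) = ρ * ρ.den := (Rat.mul_den_eq_num ρ).symm
      rw [e2, hρ]
      rw [← hρ]
      rw [← mul_assoc, hρ, mul_div_cancel₀ _ hαj]
    have e3 : α j * ρ.num = -(β j) * ρ.den := by exact_mod_cast e1
    have e4 : α j * ((ρ.den : ℤ) * r - ρ.num) = ρ.den * ff α β r j := by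
      unfold ff
      linear_combination -e3
    have e5 : (p : ℤ) ∣ α j * ((ρ.den : ℤ) * r - ρ.num) := by
      rw [e4]
      exact hd.mul_left _
    rcases hpi.dvd_or_dvd e5 with h | h
    · exact (hBg.2 p hp hzp).1 j h
    · have h2 := hcop ρ (hroot j)
      have h3 : IsUnit (p : ℤ) := h2.isUnit_of_dvd' h (Int.natCast_dvd_natCast.2 hpq)
      exact hpi.not_isUnit h3) hsz
  set N := Fintype.card J + Fintype.card (Fin n) with hN
  have hHr : (2 : ℝ) ≤ H := by exact_mod_cast hH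
  have hlH : 0 < Real.log H := Real.log_pos (by linarith)
  have e1 : ∑ t ∈ (Ioc A (A + H)).filter (fun t : ℤ => t ≡ r [ZMOD q] ∧
        (∀ i, (u i * t + v i).natAbs.Prime) ∧ ∀ j, ff α β t j ≠ 0),
        ((2 : ℝ) ^ Module.finrank ℤ
          (EAB (A0 * Pf α β t) (B0 * Pf α β t)).toAffine.Point) ^ (k + 1) ≤
        C1 * ((H : ℝ) / q) * gq z N q / (Real.log H) ^ n := by
    have e2 := e0
    rw [Fintype.card_fin] at e2
    convert e2
  have hφ : (0 : ℝ) < q.totient := by exact_mod_cast Nat.totient_pos.2 (by omega)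
  have hqφ : 1 ≤ (q : ℝ) / (q.totient : ℝ) := by
    rw [one_le_div hφ]
    exact_mod_cast Nat.totient_le q
  have hcard := card_roots_le D hD α β hα hR hroot
  have hqr : (1 : ℝ) ≤ q := by exact_mod_cast hq
  calc ∑ t ∈ (Ioc A (A + H)).filter (fun t : ℤ => t ≡ r [ZMOD q] ∧
        (∀ i, (u i * t + v i).natAbs.Prime) ∧
        D.eval (t : ℚ) ≠ 0), ((2 : ℝ) ^ rk (Tw a b (D.eval (t : ℚ)))) ^ k
      ≤ ∑ t ∈ (Ioc A (A + H)).filter (fun t : ℤ => t ≡ r [ZMOD q] ∧
        (∀ i, (u i * t + v i).natAbs.Prime) ∧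
        D.eval (t : ℚ) ≠ 0), ((2 : ℝ) ^ Module.finrank ℤ
          (EAB (A0 * Pf α β t) (B0 * Pf α β t)).toAffine.Point) ^ (k + 1) := by
        refine sum_le_sum fun t ht => ?_
        rw [(hred t (mem_filter.1 ht).2.2.2).2]
        exact pow_le_pow_right₀ (one_le_pow₀ (by norm_num)) (by omega)
    _ ≤ _ := by
        refine sum_le_sum_of_subset_of_nonneg ?_ fun t _ _ => by positivity
        intro t ht
        rw [mem_filter] at ht ⊢
        exact ⟨ht.1, ht.2.1, ht.2.2.1, (hred t ht.2.2.2).1⟩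
    _ ≤ C1 * ((H : ℝ) / q) * gq z N q / (Real.log H) ^ n := e1
    _ ≤ C1 * ((H : ℝ) / q) * (C2 * ((q : ℝ) / (q.totient : ℝ)) ^ N) / (Real.log H) ^ n := by
        refine div_le_div_of_nonneg_right ?_ (by positivity)
        exact mul_le_mul_of_nonneg_left (hg z q hz hq) (by positivity)
    _ ≤ C1 * ((H : ℝ) / q) * (C2 * ((q : ℝ) / (q.totient : ℝ)) ^ (D.natDegree + n)) /
          (Real.log H) ^ n := by
        refine div_le_div_of_nonneg_right ?_ (by positivity)
        refine mul_le_mul_of_nonneg_left (mul_le_mul_of_nonneg_left ?_ (by linarith))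
          (by positivity)
        refine pow_le_pow_right₀ hqφ ?_
        rw [hN, Fintype.card_fin]
        omega
    _ = _ := by ring

end Pool.Agent.H27.RU
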